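import Pool.Agent.Helper10.AB.BERG0
import Pool.Agent.Helper64.AB.MH2
import Pool.Agent.Helper75.AB.SPL

/-! # Project AB, modules FM + EXT: the final theorem. -/

noncomputable section

namespace Pool.Agent.Helper10.AB

open Pool.Agent.Helper24.AB

/-- Modules FM + EXT complete: `S_BERG` from the main theorem of module AN and the interfaces PHI, WT. -/
theorem berg (hANM : S_ANM) (h2 : S_PHI2) (h3 : S_PHI3) (hW : S_WTF) : S_BERG :=
  berg_of' (Pool.Agent.Helper64.AB.MH2.mh2 c_xi c_eqv c_mh1)
    (Pool.Agent.Helper75.AB.SPL.spl pars c_map c_eqv) hANM h2 h3 hW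

end Pool.Agent.Helper10.AB
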