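import Pool.Agent.Helper10.AB.GoalsF4

/-!
# Project AB (MP_1ef41b_an), module FM, part 5: the torus modes of a holomorphic function (`S_MH`)
-/

open MeasureTheory Set Filter Topology
open scoped ContDiff

noncomputable section

namespace Pool.Agent.Helper10.AB

open Pool.Agent.Helper24.AB
open Pool.Agent.Helper15.AB (S_XI S_ATL XiI)

/-- the point `(X + iθ, w)` -/
def Pz (X θ : Fin 3 → ℝ) (w : ℂ) : V4 := ![⟨X 0, θ 0⟩, ⟨X 1, θ 1⟩, ⟨X 2, θ 2⟩, w]

/-- `e^{-J·X} tm J (θ ↦ h(X+iθ,w))` -/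
def mh (h : V4 → ℂ) (J : Fin 3 → ℤ) (X : Fin 3 → ℝ) (w : ℂ) : ℂ :=
  (Real.exp (-(Jd J X)) : ℂ) * tm J (fun θ => h (Pz X θ w))

/-- PACKET PVL (0.8 h): the integral of a periodic holomorphic function over a vertical period does not depend on the line.

PROOF.  `Complex.integral_boundary_rect_eq_zero_of_differentiableOn` for the rectangle with the corners `x`, `x' + 2πi`; the two
horizontal sides cancel by periodicity. -/
def S_PVL : Prop := ∀ (x₁ x₂ : ℝ) (F : ℂ → ℂ), DifferentiableOn ℂ F {z : ℂ | x₁ < z.re ∧ z.re < x₂} →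
  (∀ z : ℂ, x₁ < z.re → z.re < x₂ → F (z + 2 * Real.pi * Complex.I) = F z) →
  ∀ x x' : ℝ, x₁ < x → x < x₂ → x₁ < x' → x' < x₂ →
    ∫ θ in (0 : ℝ)..(2 * Real.pi), F (x + θ * Complex.I) =
      ∫ θ in (0 : ℝ)..(2 * Real.pi), F (x' + θ * Complex.I)

/-- PACKET MH1 (1.2 h): one coordinate (uses S_PVL).

PROOF.  `mh h J X w = (2π)^{-3} ∫_{T3} h(X+iθ,w) exp(-∑ J_i (X_i + iθ_i)) dθ`.  Fubini with the coordinate `j` inside
(`T3` is a product, the integrand is continuous in `θ`): for fixed other coordinates the inner integral is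
`∫_0^{2π} F(x + iθ_j) dθ_j`, `F(z) = h(.., z, ..) e^{-J_j z} × const`, holomorphic and `2πi`-periodic in the vertical strip of those
`z` whose real part is in an open interval around `[X_j, x']` (the set of `x` with `update X j x ∈ Gw w` is open, `Omt` is
invariant under imaginary translations of the first three coordinates: `rfun` does not depend on them, and open).
By S_PVL it does not change. -/
def S_MH1 : Prop := ∀ (a A δ₀ ρ₀ : ℝ) (s : ℝ → ℝ) (p : ℂ → ℝ) (B : BlockData), Dat a A δ₀ ρ₀ s p B →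
  ∀ h : V4 → ℂ, DifferentiableOn ℂ h (Omt a A s p) → GamInv (Omt a A s p) h →
  ∀ (J : Fin 3 → ℤ) (w : ℂ) (j : Fin 3) (X : Fin 3 → ℝ) (x' : ℝ), w ∈ strip a →
  (∀ x ∈ uIcc (X j) x', Function.update X j x ∈ Gw a A s p w) →
    mh h J (Function.update X j x') w = mh h J X w

/-- PACKET MH2 (1.2 h): independence of `X` (uses S_XI, S_EQV, S_MH1).

PROOF.  `Gw w` is open, and it is the image of the ball `Bs a w.re` under the affine map `ζ ↦ XX (w,ζ)` (S_EQV (5), (6), (8)), so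
it is preconnected.  Around `X ∈ Gw w` take a box contained in `Gw w`; changing the three coordinates one after the other
(S_MH1, all intermediate points are in the box) shows that `mh h J · w` is constant on the box.  A locally constant function on a
preconnected set is constant (`IsPreconnected.constant_of_..`/`IsPreconnected.eqOn_const_of_..`). -/
def S_MH2 : Prop := ∀ (a A δ₀ ρ₀ : ℝ) (s : ℝ → ℝ) (p : ℂ → ℝ) (B : BlockData), Dat a A δ₀ ρ₀ s p B →
  ∀ h : V4 → ℂ, DifferentiableOn ℂ h (Omt a A s p) → GamInv (Omt a A s p) h →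
  ∀ (J : Fin 3 → ℤ) (w : ℂ) (X X' : Fin 3 → ℝ), w ∈ strip a → X ∈ Gw a A s p w →
    X' ∈ Gw a A s p w → mh h J X w = mh h J X' w

/-- PACKET MH3 (1.2 h): holomorphy in `w`.

PROOF.  For `w₀` with `X ∈ Gw w₀` there is a closed ball `B̄ = closedBall w₀ ρ` with `X ∈ Gw w` for `w ∈ B̄` (`Omt` is open, `T3`
replaced by the compact cube; or `rfun (Pz X θ w)` does not depend on `θ`).  `(θ,w) ↦ h (Pz X θ w)` is continuous on
`cube × B̄`, bounded by `M`, and holomorphic in `w ∈ ball w₀ ρ` for every `θ`; by Cauchy's estimate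
`‖∂_w h(Pz X θ w)‖ ≤ 2M/ρ` on `ball w₀ (ρ/2)` (`Complex.norm_deriv_le_of_forall_mem_sphere_norm_le`).
`hasDerivAt_integral_of_dominated_loc_of_deriv_le` (measurability of the derivative in `θ`: limit of difference quotients). -/
def S_MH3 : Prop := ∀ (a A δ₀ ρ₀ : ℝ) (s : ℝ → ℝ) (p : ℂ → ℝ) (B : BlockData), Dat a A δ₀ ρ₀ s p B →
  ∀ h : V4 → ℂ, DifferentiableOn ℂ h (Omt a A s p) → GamInv (Omt a A s p) h →
  ∀ (J : Fin 3 → ℤ) (w₀ : ℂ) (X : Fin 3 → ℝ), w₀ ∈ strip a → X ∈ Gw a A s p w₀ →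
    (∀ᶠ w in 𝓝 w₀, X ∈ Gw a A s p w) ∧ DifferentiableAt ℂ (fun w => mh h J X w) w₀

/-- PACKET MHF (1 h): assembly `S_XI → S_EQV → S_TQ → S_MH2 → S_MH3 → S_MH`.

PROOF.  For `w ∈ strip a` let `X_w = XX (w, 0) ∈ Gw w` (`0 ∈ Bs a w.re`), `η J w = mh h J X_w w`.  By S_MH2 `η J w = mh h J X w` for
every `X ∈ Gw w`, so near `w₀` `η J w = mh h J X_{w₀} w`, holomorphic by S_MH3.
`md h J y = tm J (θ ↦ h(Pz (XX y) θ y.1)) = e^{J·XX y} mh h J (XX y) y.1` (S_EQV (8), (5)).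
Equivariance: `md h J (y.1+2πi, y.2) = md h (Jn J) y`: S_TQ with `φ θ = h(Pt y θ)`, `ψ θ = h(Pt (y.1+2πi,y.2) θ)` (`CPer`: `Pt y` is
continuous with values in `Omt`, S_EQV (2), GamInv), `ψ(Qθ) = h(gE (Pt y θ)) = φ θ` (S_EQV (1)), and S_EQV (3). -/
def S_MHF : Prop := S_XI → S_EQV → S_TQ → S_MH2 → S_MH3 → S_MH

end Pool.Agent.Helper10.AB
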