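import Pool.Agent.Helper10.AB.FinBERG
import Pool.Agent.Helper10.AB.GoalsF5
import Pool.Agent.Helper58.AB.ATL
import Pool.Agent.Helper98.AB.XI
import Pool.Agent.Helper31.AB.PARS
import Pool.Agent.Helper77.AB.TQ
import Pool.Agent.Helper65.AB.TIB
import Pool.Agent.Helper93.AB.NICE
import Pool.Agent.Helper13.AB.WW
import Pool.Agent.Helper70.AB.DEC
import Pool.Agent.Helper34.AB.EXPD
import Pool.Agent.Helper38.AB.INTD
import Pool.Agent.Helper54.AB.ORB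
import Pool.Agent.Helper60.AB.UNQ
import Pool.Agent.Helper40.AB.GDK
import Pool.Agent.Helper89.AB.EQV
import Pool.Agent.Helper93.AB.MAP
import Pool.Agent.Helper87.AB.NRM
import Pool.Agent.Helper56.AB.PHC
import Pool.Agent.Helper59.AB.PB
import Pool.Agent.Helper79.AB.EX1
import Pool.Agent.Helper38.AB.EX2
import Pool.Agent.Helper83.AB.EX3
import Pool.Agent.Helper97.AB.LIP
import Pool.Agent.Helper40.AB.BOX
import Pool.Agent.Helper8.AB.PTW
import Pool.Agent.Helper2.AB.HFD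
import Pool.Agent.Helper89.AB.DTI
import Pool.Agent.Helper34.AB.EDR
import Pool.Agent.Helper42.AB.FJ1
import Pool.Agent.Helper2.AB.FJM
import Pool.Agent.Helper61.AB.FJD
import Pool.Agent.Helper61.AB.GBJ
import Pool.Agent.Helper79.AB.GEQ
import Pool.Agent.Helper68.AB.COL
import Pool.Agent.Helper31.AB.SHF
import Pool.Agent.Helper89.AB.MDG
import Pool.Agent.Helper68.AB.GIN
import Pool.Agent.Helper31.AB.BDD
import Pool.Agent.Helper74.AB.CJZ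
import Pool.Agent.Helper68.AB.PVL
import Pool.Agent.Helper9.AB.MH1
import Pool.Agent.Helper74.AB.MH3
import Pool.Agent.Helper56.AB.MHF
import Pool.Agent.Helper95.AB.FinX
import Pool.Agent.Helper59.AB.MVT
import Pool.Agent.Helper87.AB.URAP

/-! # Project AB, modules FM + EXT: collection of the packets. -/

noncomputable section

namespace Pool.Agent.Helper10.AB

open Pool.Agent.Helper24.AB
open Pool.Agent.Helper15.AB (S_XI S_ATL XiI)

theorem c_atl : S_ATL := Pool.Agent.Helper58.AB.atl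
theorem c_xi : S_XI := Pool.Agent.Helper98.AB.xi c_atl
theorem c_ww : S_WW := Pool.Agent.Helper13.AB.ww
theorem c_eqv : S_EQV := Pool.Agent.Helper89.AB.eqv c_xi
theorem c_map : S_MAP := Pool.Agent.Helper93.AB.map c_xi c_atl c_eqv
theorem c_pb : S_PB := Pool.Agent.Helper59.AB.pb c_xi c_eqv
theorem c_tib : S_TIB := Pool.Agent.Helper65.AB.tib
theorem c_tq : S_TQ := Pool.Agent.Helper77.AB.tq
theorem c_nice : S_NICE := Pool.Agent.Helper93.AB.nice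
theorem c_dec : S_DEC := Pool.Agent.Helper70.AB.DEC.dec c_tq c_tib c_nice c_ww
theorem c_orb : S_ORB := Pool.Agent.Helper54.AB.orb c_ww
theorem c_lip : S_LIP := Pool.Agent.Helper97.AB.lip c_xi
theorem c_ex3 : S_EX3 :=
  Pool.Agent.Helper83.AB.ex3 c_xi Pool.Agent.Helper79.AB.ex1 Pool.Agent.Helper38.AB.ex2
theorem c_bdd : S_BDD := bdd c_xi c_eqv
theorem c_gdk : S_GDK := Pool.Agent.Helper40.AB.gdk Pool.Agent.Helper87.AB.urap
theorem c_gbj : S_GBJ := Pool.Agent.Helper61.AB.gbj c_ww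

theorem c_nrm (h3 : S_PHI3) : S_NRM := Pool.Agent.Helper87.AB.nrm c_atl c_eqv c_map h3
theorem c_phc (h2 : S_PHI2) : S_PHC := Pool.Agent.Helper56.AB.phc c_atl h2 c_ww
theorem c_geq (h2 : S_PHI2) (h3 : S_PHI3) : S_GEQ :=
  Pool.Agent.Helper79.AB.geq Pool.Agent.Helper60.AB.unq (c_nrm h3) (c_phc h2)
theorem c_ptw (h2 : S_PHI2) (h3 : S_PHI3) : S_PTW :=
  Pool.Agent.Helper8.AB.ptw c_lip Pool.Agent.Helper40.AB.box c_eqv c_map (c_nrm h3) (c_phc h2)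
theorem c_hfd (h2 : S_PHI2) (h3 : S_PHI3) : S_HFD := Pool.Agent.Helper2.AB.hfd (c_ptw h2 h3) c_lip c_ww
theorem c_edr (h2 : S_PHI2) (h3 : S_PHI3) : S_EDR :=
  Pool.Agent.Helper34.AB.edr Pool.Agent.Helper89.AB.dti c_eqv c_atl h2 h3 c_ww
theorem c_fj1 (h2 : S_PHI2) (h3 : S_PHI3) : S_FJ1 :=
  Pool.Agent.Helper42.AB.fj1 c_pb c_nice c_dec (c_edr h2 h3) Pool.Agent.Helper34.AB.expd
    Pool.Agent.Helper38.AB.intd (c_nrm h3) c_ww
theorem c_fjm (h2 : S_PHI2) (h3 : S_PHI3) : S_FJM :=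
  Pool.Agent.Helper2.AB.FJMp.fjm c_pb c_nice c_dec (c_nrm h3) (c_phc h2) c_eqv c_atl
theorem c_fja (h2 : S_PHI2) (h3 : S_PHI3) : S_FJA := fja_of (c_fj1 h2 h3) (c_fjm h2 h3)
theorem c_fjd (h2 : S_PHI2) (h3 : S_PHI3) : S_FJD :=
  Pool.Agent.Helper61.AB.fjd (c_fja h2 h3) c_ww Pool.Agent.Helper59.AB.mvt
theorem c_col (h2 : S_PHI2) (h3 : S_PHI3) : S_COL :=
  Pool.Agent.Helper68.AB.col (c_nrm h3) (c_phc h2) c_eqv c_pb c_nice
theorem c_cjz (h2 : S_PHI2) (h3 : S_PHI3) : S_CJZ :=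
  Pool.Agent.Helper74.AB.CJZ.cjz (c_col h2 h3) shf (c_nrm h3) (c_phc h2)
    (c_fja h2 h3) (c_fjd h2 h3) c_ww
theorem c_gin (h2 : S_PHI2) (h3 : S_PHI3) : S_GIN :=
  Pool.Agent.Helper68.AB.gin (c_hfd h2 h3) c_eqv Pool.Agent.Helper89.AB.mdg c_ww c_xi
theorem c_gfx (h2 : S_PHI2) (h3 : S_PHI3) : S_GFX :=
  Pool.Agent.Helper95.AB.gfx (c_fja h2 h3) (c_nrm h3) (c_phc h2)
theorem c_mh1 : S_MH1 := Pool.Agent.Helper9.AB.MH1.mh1 Pool.Agent.Helper68.AB.pvl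

theorem berg_of' (h2m : S_MH2) (hspl : S_SPL) (hANM : S_ANM) (h2 : S_PHI2) (h3 : S_PHI3)
    (hW : S_WTF) : S_BERG :=
  berg_of hANM h2 h3 hW c_ww c_orb c_gdk c_ex3 (c_hfd h2 h3) c_eqv (c_fja h2 h3) (c_fjd h2 h3)
    c_gbj (c_geq h2 h3) (c_gfx h2 h3)
    (Pool.Agent.Helper56.AB.mhf c_xi c_eqv c_tq h2m Pool.Agent.Helper74.AB.MH3.mh3) hspl
    (c_gin h2 h3) c_bdd (c_cjz h2 h3)

end Pool.Agent.Helper10.AB
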