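import Pool.Agent.Helper10.AB.FinEMB
import Pool.Agent.Helper14.AB.ACT1
import Pool.Agent.Helper11.AB.ACT2
import Pool.Agent.Helper70.AB.KER
import Pool.Agent.Helper80.AB.SER
import Pool.Agent.Helper14.AB.CLO
import Pool.Agent.Helper26.AB.ISO
import Pool.Agent.Helper7.AB.MOD
import Pool.Agent.Helper51.AB.CPT

/-! # Project AB, module EMB: the final theorem `S_EMB`. -/

namespace Pool.Agent.Helper10.AB

open Pool.Agent.Helper24.AB

theorem emb : S_EMB :=
  emb_of Pool.Agent.Helper14.AB.act1 Pool.Agent.Helper11.AB.act2 Pool.Agent.Helper70.AB.ker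
    (Pool.Agent.Helper80.AB.ser Pool.Agent.Helper14.AB.act1)
    (Pool.Agent.Helper14.AB.clo Pool.Agent.Helper14.AB.act1) Pool.Agent.Helper26.AB.iso
    (Pool.Agent.Helper7.AB.mod Pool.Agent.Helper14.AB.act1)
    (Pool.Agent.Helper51.AB.cpt Pool.Agent.Helper14.AB.act1 Pool.Agent.Helper11.AB.act2)

end Pool.Agent.Helper10.AB
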