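import Pool.Agent.Helper10.AB.GoalsF4

/-! # Project AB, modules FM + EXT: assembly of `S_BERG`. -/

open MeasureTheory Set Filter Topology
open scoped ContDiff

noncomputable section

namespace Pool.Agent.Helper10.AB

open Pool.Agent.Helper24.AB
open Pool.Agent.Helper15.AB (S_XI S_ATL XiI)

theorem fja_of (h1 : S_FJ1) (h2 : S_FJM) : S_FJA := by
  intro a A δ₀ ρ₀ s p B D f hf hi
  obtain ⟨a1, a2⟩ := h1 a A δ₀ ρ₀ s p B D f hf hi
  obtain ⟨b1, b2⟩ := h2 a A δ₀ ρ₀ s p B D f hf hi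
  exact ⟨a1, a2, b1, b2⟩

theorem meas_YS (a : ℝ) : MeasurableSet (YS a (cell a)) := by
  have h1 : MeasurableSet {y : YY | y.1 ∈ cell a} := by
    have e : {y : YY | y.1 ∈ cell a} =
        {y : YY | |y.1.re| < a} ∩ ({y : YY | 0 ≤ y.1.im} ∩ {y : YY | y.1.im < 2 * Real.pi}) := by
      ext y; simp [cell]
    rw [e]
    have hre : Measurable fun y : YY => y.1.re := Complex.measurable_re.comp measurable_fst
    have him : Measurable fun y : YY => y.1.im := Complex.measurable_im.comp measurable_fst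
    have habs : Measurable fun y : YY => |y.1.re| := continuous_abs.measurable.comp hre
    exact (measurableSet_lt habs measurable_const).inter
      ((measurableSet_le measurable_const him).inter (measurableSet_lt him measurable_const))
  have h2 : MeasurableSet {y : YY | y.2 ∈ Bs a y.1.re} := by
    have hre : Measurable fun y : YY => y.1.re := Complex.measurable_re.comp measurable_fst
    have hz : ∀ i : Fin 3, Measurable fun y : YY => y.2 i := fun i =>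
      (measurable_pi_apply i).comp measurable_snd
    have : MeasurableSet {y : YY | y.2 0 ^ 2 + y.2 1 ^ 2 + y.2 2 ^ 2 < a ^ 2 - y.1.re ^ 2} :=
      measurableSet_lt ((((hz 0).pow_const 2).add ((hz 1).pow_const 2)).add ((hz 2).pow_const 2))
        (measurable_const.sub (hre.pow_const 2))
    exact this
  exact h1.inter h2

theorem ae_muY (a A : ℝ) (s : ℝ → ℝ) : ∀ᵐ y ∂(muY a A s (cell a)), y ∈ YS a (cell a) := by
  have h1 : ∀ᵐ y ∂(volume.restrict (YS a (cell a))), y ∈ YS a (cell a) :=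
    ae_restrict_mem (meas_YS a)
  exact (withDensity_absolutelyContinuous _ _).ae_le h1

theorem integrable_T3 (φ : (Fin 3 → ℝ) → ℂ) (hφ : Continuous φ) : IntegrableOn φ T3 := by
  have hsub : T3 ⊆ Set.Icc (fun _ => (0 : ℝ)) (fun _ => 2 * Real.pi) := by
    intro θ hθ
    exact ⟨fun i => (hθ i (Set.mem_univ i)).1, fun i => (hθ i (Set.mem_univ i)).2.le⟩
  exact (hφ.continuousOn.integrableOn_compact isCompact_Icc).mono_set hsub

theorem tm_sub (J : Fin 3 → ℤ) (φ ψ : (Fin 3 → ℝ) → ℂ) (hφ : Continuous φ) (hψ : Continuous ψ) :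
    tm J (fun θ => φ θ - ψ θ) = tm J φ - tm J ψ := by
  have hJ : Continuous fun θ : Fin 3 → ℝ => Complex.exp (-(Complex.I * (Jd J θ : ℝ))) := by
    unfold Jd
    fun_prop
  unfold tm
  have i1 : IntegrableOn (fun θ => φ θ * Complex.exp (-(Complex.I * (Jd J θ : ℝ)))) T3 :=
    integrable_T3 _ (hφ.mul hJ)
  have i2 : IntegrableOn (fun θ => ψ θ * Complex.exp (-(Complex.I * (Jd J θ : ℝ)))) T3 :=
    integrable_T3 _ (hψ.mul hJ)
  rw [← mul_sub, ← integral_sub i1 i2]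
  congr 1
  refine integral_congr_ae (Eventually.of_forall fun θ => ?_)
  simp only [sub_mul]

theorem cont_Pt (a A : ℝ) (s : ℝ → ℝ) (p : ℂ → ℝ)
    (hE : ∀ (y : YY) θ, Pt a A s p y θ = ![⟨XX a A s p y 0, θ 0⟩, ⟨XX a A s p y 1, θ 1⟩,
    ⟨XX a A s p y 2, θ 2⟩, y.1]) (y : YY) : Continuous fun θ => Pt a A s p y θ := by
  have e : (fun θ => Pt a A s p y θ) = fun θ : Fin 3 → ℝ => (![(XX a A s p y 0 : ℂ) + θ 0 * Complex.I,
      (XX a A s p y 1 : ℂ) + θ 1 * Complex.I, (XX a A s p y 2 : ℂ) + θ 2 * Complex.I, y.1] : V4) := by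
    funext θ
    rw [hE]
    funext i
    fin_cases i <;> simp [Complex.ext_iff]
  rw [e]
  refine continuous_pi fun i => ?_
  fin_cases i <;> simp <;> fun_prop

theorem berg_of (hANM : S_ANM) (hPHI2 : S_PHI2) (hPHI3 : S_PHI3) (hWTF : S_WTF) (hWW : S_WW)
    (hORB : S_ORB) (hGDK : S_GDK) (hEX3 : S_EX3) (hHFD : S_HFD) (hEQV : S_EQV) (hFJA : S_FJA)
    (hFJD : S_FJD) (hGBJ : S_GBJ) (hGEQ : S_GEQ) (hGFX : S_GFX) (hMH : S_MH) (hSPL : S_SPL)
    (hGIN : S_GIN) (hBDD : S_BDD) (hCJZ : S_CJZ) : S_BERG := by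
  intro a A s hs
  obtain ⟨ρ₀, hρ₀, hw⟩ := hWTF a A s hs
  have hkap : 0 < kap := by
    unfold kap lam
    apply div_pos _ (by positivity)
    apply Real.log_pos
    have : (0:ℝ) ≤ Real.sqrt 5 := Real.sqrt_nonneg 5
    linarith
  have hA := hs.A_pos
  refine ⟨kap ^ 2 * A / 4, ρ₀, by positivity, hρ₀, ?_⟩
  intro δ₀ p B hδ hp f hf hfi
  have D : Dat a A δ₀ ρ₀ s p B := ⟨hs, hp, hδ⟩
  obtain ⟨hwt, hint, hWsh, hWcmp, halp, hsum4, halpJ, hbij⟩ := hWW
  obtain ⟨f1, f2, f3, f4⟩ := hFJA a A δ₀ ρ₀ s p B D f hf hfi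
  obtain ⟨fd1, fd2⟩ := hFJD a A δ₀ ρ₀ s p B D f hf hfi
  obtain ⟨ph1, ph2, ph3⟩ := hPHI3 a A δ₀ ρ₀ s p B hs hp
  have hP2 := fun J : JJ => hPHI2 a A δ₀ ρ₀ s p B hs hp hδ (alp J.1) (alp' J.1) (J.1 2)
    (halp J.1 J.2).1
  -- the non fixed frequencies
  obtain ⟨g₀, g₀h, g₀u, g₀o⟩ := hANM a JJ (fun J => PhiJ a A s p J.1) (fun J => WJ J.1)
    (fun J => FJ a A s p f J.1) hs.a_pos hwt (fun J => (hP2 J).2.1)
    (fun J w hw => ((hP2 J).2.2 w hw).2) (hw δ₀ p B hδ hp) hint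
    (fun k hk => by
      obtain ⟨C, N, hC⟩ := ph1 k hk
      exact ⟨C, N, fun J w hw => (hC (alp J.1) (alp' J.1) (J.1 2) (halp J.1 J.2).1 w hw).2⟩)
    (fun J => f3 J.1)
    (fun k N => by
      obtain ⟨C, hC⟩ := fd1 k N
      exact ⟨C, fun J h h0 h1 w hw => hC J.1 h h0 h1 w hw⟩)
  -- the fixed frequencies
  obtain ⟨g₁, g₁b, g₁p, g₁o⟩ := hGFX a A δ₀ ρ₀ s p B D f hf hfi
  classical
  set g : (Fin 3 → ℤ) → ℂ → ℂ := fun J => if h : J 0 ≠ 0 ∨ J 1 ≠ 0 then g₀ ⟨J, h⟩ else g₁ J with hg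
  have gJ : ∀ J : JJ, g J.1 = g₀ J := fun J => by
    rw [hg]; simp only [J.2, dif_pos]
  have gK : ∀ J, J ∈ K0 → g J = g₁ J := fun J hJ => by
    have : ¬ (J 0 ≠ 0 ∨ J 1 ≠ 0) := by
      rintro (h | h)
      · exact h hJ.1
      · exact h hJ.2
    rw [hg]; simp only [this, dif_neg, not_false_iff]
  -- the bounds
  have hGDK' := hGDK a JJ (fun J => PhiJ a A s p J.1) (fun J => WJ J.1) g₀ hs.a_pos hwt
    (fun J => (hP2 J).2.1) g₀h
    (fun k hk => by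
      obtain ⟨C, N, hC⟩ := ph1 k hk
      exact ⟨C, N, fun J w hw => (hC (alp J.1) (alp' J.1) (J.1 2) (halp J.1 J.2).1 w hw).1⟩) g₀u
  have hB1 : GBd a A s p {J | J 0 ≠ 0 ∨ J 1 ≠ 0} g := by
    refine hGBJ a A δ₀ ρ₀ s p B D g (fun J hJ => ?_) (fun k => ?_)
    · have := g₀h ⟨J, hJ⟩
      rwa [← gJ ⟨J, hJ⟩] at this
    · have e : (fun (J : JJ) w => (Real.exp (-(PhiJ a A s p J.1 w)) : ℂ) * deriv^[k] (g J.1) w) =
          fun (J : JJ) w => (Real.exp (-(PhiJ a A s p J.1 w)) : ℂ) * deriv^[k] (g₀ J) w := by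
        funext J w; rw [gJ]
      rw [e]
      exact hGDK' k
  have hB : GBd a A s p Set.univ g := by
    refine ⟨fun J _ => ?_, fun k N T => ?_⟩
    · by_cases hJ : J 0 ≠ 0 ∨ J 1 ≠ 0
      · exact hB1.1 J hJ
      · push Not at hJ
        have hK : J ∈ K0 := hJ
        rw [gK J hK]
        exact g₁b.1 J hK
    · obtain ⟨C1, h1⟩ := hB1.2 k N T
      obtain ⟨C2, h2⟩ := g₁b.2 k N T
      refine ⟨max C1 C2, fun J _ => ?_⟩
      by_cases hJ : J 0 ≠ 0 ∨ J 1 ≠ 0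
      · exact ⟨(h1 J hJ).1, (h1 J hJ).2.trans (le_max_left _ _)⟩
      · push Not at hJ
        have hK : J ∈ K0 := hJ
        rw [gK J hK]
        exact ⟨(h2 J hK).1, (h2 J hK).2.trans (le_max_right _ _)⟩
  -- weighted L², orthogonality
  have hL : ∀ J, (J 0 ≠ 0 ∨ J 1 ≠ 0) →
      MemLp (fun w => (Real.exp (-(PhiJ a A s p J w)) : ℂ) * g J w) 2 (muS a) ∧
      OrtS a (PhiJ a A s p J) (FJ a A s p f J) (g J) := by
    intro J hJ
    have e := gJ ⟨J, hJ⟩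
    simp only at e
    rw [e]
    refine ⟨?_, g₀o ⟨J, hJ⟩⟩
    obtain ⟨m1, m2⟩ := hGDK' 0
    obtain ⟨C, hC⟩ := m2 0
    have hC' := hC ⟨J, hJ⟩
    simp only [pow_zero, one_smul, Function.iterate_zero, id] at hC'
    have m1' := m1 ⟨J, hJ⟩
    simp only [Function.iterate_zero, id] at m1'
    exact ⟨m1', hC'.trans_lt ENNReal.coe_lt_top⟩
  have hOC : ∀ J, J 0 = 0 → J 1 = 0 → OrtC a (PhiJ a A s p J) (FJ a A s p f J) (g J) := by
    intro J h0 h1
    have hK : J ∈ K0 := ⟨h0, h1⟩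
    rw [gK J hK]
    exact g₁o J hK
  -- equivariance
  have hEq : ∀ J, ∀ w ∈ strip a, g J (w + 2 * Real.pi * Complex.I) = g (Jn J) w := by
    intro J
    by_cases hJ : J 0 ≠ 0 ∨ J 1 ≠ 0
    · refine hGEQ a A δ₀ ρ₀ s p B D (FJ a A s p f) g J (fun J' => ?_) hJ (f4 J) (fun J' hJ' => ?_)
      · by_cases hJ' : J' 0 ≠ 0 ∨ J' 1 ≠ 0
        · exact Or.inl (fd2 ⟨J', hJ'⟩)
        · push Not at hJ'
          exact Or.inr hJ'
      · exact ⟨hB.1 J' (Set.mem_univ _), (hL J' hJ').1, (hL J' hJ').2⟩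
    · push Not at hJ
      have hK : J ∈ K0 := hJ
      have hJn : Jn J = J := by
        funext i
        fin_cases i <;> simp [Jn, hJ.1, hJ.2]
      intro w hw
      rw [hJn, gK J hK]
      exact g₁p J hK w hw
  -- the function
  obtain ⟨H1, H2, H3⟩ := hHFD a A δ₀ ρ₀ s p B D g hB
  obtain ⟨G, hGs, hGe⟩ := hEX3 a A δ₀ ρ₀ s p B D (ℕ × (Fin 3 → ℕ)) (HH g) nxt H2 H3 (0, 0)
  obtain ⟨hGi, hGh, hGm⟩ := hGIN a A δ₀ ρ₀ s p B D g hB hEq G hGs hGe
  refine ⟨G, hGs, hGi, hGh, ?_⟩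
  intro h hh hhi hhL
  obtain ⟨η, ηh, ηe, ηm⟩ := hMH a A δ₀ ρ₀ s p B D h hh hhi
  obtain ⟨e1, e2, e3, e4, e5, e6, e7, e8, e9⟩ := hEQV a A δ₀ ρ₀ s p B D
  have hsub : Omt a A s p ⊆ closure (Omt a A s p) := subset_closure
  have hfc : ContinuousOn f (closure (Omt a A s p)) := hf.continuousOn
  have hGc : ContinuousOn G (closure (Omt a A s p)) := hGs.continuousOn
  obtain ⟨s1, s2, s3, s4⟩ := hSPL a A δ₀ ρ₀ s p B D (fun P => f P - G P) h
    ((hfc.sub hGc).mono hsub) hh.continuousOn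
    (fun P hP k => by rw [(hfi P (hsub hP)).2 k, (hGi P (hsub hP)).2 k])
    (fun P hP k => (hhi P hP).2 k)
    ((hBDD a A δ₀ ρ₀ s p B D).2 _ (hfc.sub hGc)) hhL
  have hfL : ∀ J, Integrable (fun y => ‖md a A s p f J y‖ ^ 2) (muY a A s (cell a)) := by
    obtain ⟨t1, -, -, -⟩ := hSPL a A δ₀ ρ₀ s p B D f h (hfc.mono hsub) hh.continuousOn
      (fun P hP k => (hfi P (hsub hP)).2 k) (fun P hP k => (hhi P hP).2 k)
      ((hBDD a A δ₀ ρ₀ s p B D).2 _ hfc) hhL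
    exact fun J => (t1 J).1
  have hcell : ∀ y, y ∈ YS a (cell a) → y ∈ YS a (strip a) := fun y hy => ⟨hy.1.1, hy.2⟩
  have hη2 : ∀ J, (fun y : YY => ‖md a A s p h J y‖ ^ 2) =ᵐ[muY a A s (cell a)]
      fun y : YY => ‖η J y.1 * (Real.exp (Jd J (XX a A s p y)) : ℂ)‖ ^ 2 := fun J => by
    filter_upwards [ae_muY a A s] with y hy
    rw [ηm J y (hcell y hy)]
  have hcont : ∀ (F : V4 → ℂ), ContinuousOn F (Omt a A s p) → ∀ y ∈ YS a (strip a),
      Continuous fun θ => F (Pt a A s p y θ) := by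
    intro F hF y hy
    rw [← continuousOn_univ]
    exact hF.comp (cont_Pt a A s p e8 y).continuousOn fun θ _ => (e5 y θ).2 hy
  set JnE : Equiv.Perm (Fin 3 → ℤ) := Equiv.ofBijective Jn hbij with hJnE
  have hJnE' : ∀ J, JnE J = Jn J := fun J => rfl
  set c : (Fin 3 → ℤ) → ℂ := fun J => ∫ y : YY, (md a A s p f J y -
      g J y.1 * (Real.exp (Jd J (XX a A s p y)) : ℂ)) *
        (starRingEnd ℂ) (η J y.1 * (Real.exp (Jd J (XX a A s p y)) : ℂ)) ∂(muY a A s (cell a))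
    with hc
  have hce : ∀ J, ∫ y, md a A s p (fun P => f P - G P) J y * (starRingEnd ℂ) (md a A s p h J y)
      ∂(muY a A s (cell a)) = c J := by
    intro J
    refine integral_congr_ae ?_
    filter_upwards [ae_muY a A s] with y hy
    have hy' := hcell y hy
    have hsubm : md a A s p (fun P => f P - G P) J y = md a A s p f J y - md a A s p G J y :=
      tm_sub J _ _ (hcont f (hfc.mono hsub) y hy') (hcont G (hGc.mono hsub) y hy')
    rw [hsubm, hGm J y hy', ηm J y hy']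
  obtain ⟨c1, c2⟩ := hCJZ a A δ₀ ρ₀ s p B D f hf hfi hfL g η hB hEq hL hOC ηh ηe
    (fun J => ((s1 J).2).congr (hη2 J))
    (by
      have : (fun J : Fin 3 → ℤ => ∫ y : YY, ‖η J y.1 * (Real.exp (Jd J (XX a A s p y)) : ℂ)‖ ^ 2
          ∂(muY a A s (cell a))) = fun J => ∫ y, ‖md a A s p h J y‖ ^ 2 ∂(muY a A s (cell a)) := by
        funext J
        exact (integral_congr_ae (hη2 J)).symm
      rw [this]
      exact s2) JnE hJnE' c (fun J => rfl)
  have hsumc : Summable fun J => ‖c J‖ := by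
    have : (fun J => ‖c J‖) = fun J => ‖∫ y, md a A s p (fun P => f P - G P) J y *
        (starRingEnd ℂ) (md a A s p h J y) ∂(muY a A s (cell a))‖ := by
      funext J; rw [hce]
    rw [this]
    exact s3
  have hz : ∑' J, c J = 0 := hORB JnE hJnE' c hsumc c1 c2
  have hfin : ∫ P in Fund a A s p, (f P - G P) * (starRingEnd ℂ) (h P) = 0 := by
    refine Eq.trans s4 ?_
    have : (∑' J : Fin 3 → ℤ, ∫ y, md a A s p (fun P => f P - G P) J y *
        (starRingEnd ℂ) (md a A s p h J y) ∂(muY a A s (cell a))) = ∑' J, c J :=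
      tsum_congr hce
    rw [this, hz, mul_zero]
  exact hfin

end Pool.Agent.Helper10.AB
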