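import Pool.Agent.Helper10.AB.GoalsEMB

/-! # Project AB, module EMB: assembly. -/

open Set Filter Topology
open scoped ContDiff

noncomputable section

namespace Pool.Agent.Helper10.AB

open Pool.Agent.Helper24.AB

theorem th_inv (h1 : S_ACT1) (β : Fin 14 → ℂ → ℂ) (P : V4) :
    Th β (gE P) = Th β P ∧ ∀ k, Th β (tE k P) = Th β P := by
  have hT := h1.2.2.2.2.2.2.2.2.2
  constructor
  · funext j
    by_cases hj : j = 3
    · subst hj
      simp only [Th, if_true]
      have : gE P 3 = P 3 + 2 * Real.pi * Complex.I := rfl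
      rw [this, Complex.exp_add, Complex.exp_two_pi_mul_I, mul_one]
    · simp only [Th, hj, if_false]
      refine Finset.sum_congr rfl fun i _ => ?_
      rw [(hT (β i) (frq i) P).1]
  · intro k
    funext j
    by_cases hj : j = 3
    · subst hj
      simp only [Th, if_true]
      have : tE k P 3 = P 3 := rfl
      rw [this]
    · simp only [Th, hj, if_false]
      refine Finset.sum_congr rfl fun i _ => ?_
      rw [(hT (β i) (frq i) P).2]

theorem th_fderiv (h3 : S_SER) (β β' : Fin 14 → ℂ → ℂ) (hg : ∀ i, Good (β i) (β' i)) (P : V4)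
    (hP : |(P 3).re| < 1) : HasFDerivAt (Th β) (ThD β β' P) P := by
  unfold Th ThD
  rw [hasFDerivAt_pi]
  intro j
  by_cases hj : j = 3
  · subst hj
    simp only [if_true]
    have h : HasFDerivAt (fun P : V4 => P 3) dw P := dw.hasFDerivAt
    exact h.cexp
  · simp only [hj, if_false]
    refine HasFDerivAt.fun_sum fun i _ => ?_
    by_cases hc : cmp i = j
    · simp only [hc, if_true]
      exact (h3 (β i) (β' i) (hg i) (frq i)).1 P hP
    · simp only [hc, if_false]
      exact hasFDerivAt_const _ _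

theorem dw_norm : ‖dw‖ ≤ 1 := by
  refine ContinuousLinearMap.opNorm_le_bound _ zero_le_one fun v => ?_
  rw [one_mul]
  exact norm_le_pi_norm v 3

theorem th_contD (β β' : Fin 14 → ℂ → ℂ) (s : Set V4)
    (h : ∀ i, ContinuousOn (TD (β i) (β' i) (frq i)) s) : ContinuousOn (ThD β β') s := by
  unfold ThD
  have key : ∀ f : V4 → Fin 4 → (V4 →L[ℂ] ℂ), (∀ j, ContinuousOn (fun P => f P j) s) →
      ContinuousOn (fun P => ContinuousLinearMap.pi (f P)) s := by
    intro f hf
    have h1 : ContinuousOn f s := continuousOn_pi.2 hf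
    have h2 : Continuous (fun g : Fin 4 → (V4 →L[ℂ] ℂ) => ContinuousLinearMap.pi g) := by
      have : (fun g : Fin 4 → (V4 →L[ℂ] ℂ) => ContinuousLinearMap.pi g) =
          fun g => ∑ j : Fin 4, (ContinuousLinearMap.single ℂ (fun _ : Fin 4 => ℂ) j).comp (g j) := by
        funext g
        ext v i
        simp [Finset.sum_apply, Pi.single_apply]
      rw [this]
      refine continuous_finsetSum _ fun j _ => ?_
      exact continuous_const.clm_comp (continuous_apply j)
    exact h2.comp_continuousOn h1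
  refine key _ fun j => ?_
  by_cases hj : j = 3
  · subst hj
    simp only [if_true]
    exact ((Complex.continuous_exp.comp (continuous_apply 3)).smul continuous_const).continuousOn
  · simp only [hj, if_false]
    refine continuousOn_finsetSum _ fun i _ => ?_
    by_cases hc : cmp i = j
    · simp only [hc, if_true]; exact h i
    · simp only [hc, if_false]; exact continuousOn_const

theorem th_cont (β : Fin 14 → ℂ → ℂ) (h : ∀ i, Continuous (TS (β i) (frq i))) :
    Continuous (Th β) := by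
  unfold Th
  refine continuous_pi fun j => ?_
  by_cases hj : j = 3
  · subst hj
    simp only [if_true]
    exact Complex.continuous_exp.comp (continuous_apply 3)
  · simp only [hj, if_false]
    refine continuous_finsetSum _ fun i _ => ?_
    by_cases hc : cmp i = j
    · simp only [hc, if_true]; exact h i
    · simp only [hc, if_false]; exact continuous_const

/-- A bound on the core extends to a neighbourhood. -/
theorem nbh (h2 : S_ACT2) (f : V4 → ℝ) (ε : ℝ) (hε : 0 < ε)
    (hf : ContinuousOn f {P : V4 | |(P 3).re| < 1})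
    (hc : ∀ P, Core P → |(P 3).im| ≤ 8 → f P ≤ ε) :
    ∃ δ : ℝ, 0 < δ ∧ ∀ P, P ∈ Unb δ → Box P → f P ≤ 2 * ε := by
  obtain ⟨C, hC, hre⟩ := h2.2.2.2.2.1
  by_contra hcon
  push Not at hcon
  have h0 : ∀ n : ℕ, ∃ P, P ∈ Unb (1 / ((n : ℝ) + 1)) ∧ Box P ∧ 2 * ε < f P := fun n =>
    hcon _ (by positivity)
  choose p hp1 hp2 hp3 using h0
  have hbd : ∀ n, p n ∈ Metric.closedBall (0 : V4) (C + 9) := by
    intro n
    rw [mem_closedBall_zero_iff]
    refine (pi_norm_le_iff_of_nonneg (by positivity)).2 fun i => ?_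
    have a1 := hre _ _ (hp1 n) (hp2 n) i
    have a2 : |(p n i).im| ≤ 8 := abs_le.2 ⟨by linarith [(hp2 n i).1], (hp2 n i).2⟩
    have a3 : C * (1 / ((n : ℝ) + 1)) ≤ C := by
      have : 1 / ((n : ℝ) + 1) ≤ 1 := by
        rw [div_le_one (by positivity)]; linarith [Nat.cast_nonneg (α := ℝ) n]
      nlinarith
    linarith [Complex.norm_le_abs_re_add_abs_im (p n i)]
  obtain ⟨q, -, φ, hφ, hlim⟩ := (isCompact_closedBall (0 : V4) (C + 9)).tendsto_subseq hbd
  have hcomp : ∀ i, Tendsto (fun n => p (φ n) i) atTop (𝓝 (q i)) := fun i =>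
    (tendsto_pi_nhds.1 hlim) i
  have hre0 : Core q := by
    intro i
    have t1 : Tendsto (fun n => |(p (φ n) i).re|) atTop (𝓝 |(q i).re|) :=
      (Complex.continuous_re.tendsto _ |>.comp (hcomp i)).abs
    have t2 : Tendsto (fun n => C * (1 / ((φ n : ℝ) + 1))) atTop (𝓝 (C * 0)) :=
      ((tendsto_one_div_add_atTop_nhds_zero_nat (𝕜 := ℝ)).comp hφ.tendsto_atTop).const_mul C
    rw [mul_zero] at t2
    have : |(q i).re| ≤ 0 := le_of_tendsto_of_tendsto' t1 t2 fun n => hre _ _ (hp1 _) (hp2 _) i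
    exact abs_nonpos_iff.1 this
  have him : |(q 3).im| ≤ 8 := by
    have t1 : Tendsto (fun n => (p (φ n) 3).im) atTop (𝓝 (q 3).im) :=
      (Complex.continuous_im.tendsto _).comp (hcomp 3)
    have : (q 3).im ∈ Icc (-8 : ℝ) 8 := isClosed_Icc.mem_of_tendsto t1
      (Eventually.of_forall fun n => ⟨by linarith [(hp2 (φ n) 3).1], (hp2 (φ n) 3).2⟩)
    exact abs_le.2 this
  have hq : f q ≤ ε := hc q hre0 him
  have hopen : IsOpen {P : V4 | |(P 3).re| < 1} :=
    isOpen_lt ((Complex.continuous_re.comp (continuous_apply 3)).abs) continuous_const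
  have hmem : q ∈ {P : V4 | |(P 3).re| < 1} := by
    simp only [mem_ofPred_eq, hre0 3, abs_zero, zero_lt_one]
  have hcont : ContinuousAt f q := hf.continuousAt (hopen.mem_nhds hmem)
  have t3 : Tendsto (fun n => f (p (φ n))) atTop (𝓝 (f q)) := hcont.tendsto.comp hlim
  have : 2 * ε ≤ f q := ge_of_tendsto' t3 fun n => (hp3 _).le
  linarith

theorem emb_of (h1 : S_ACT1) (h2 : S_ACT2) (hK : S_KER) (h3 : S_SER) (h4 : S_CLO) (h5 : S_ISO)
    (h6 : S_MOD) (h7 : S_CPT) : S_EMB := by
  obtain ⟨hbb, hM1, hM2⟩ := h6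
  -- constants
  choose hcont C hC hclo using h4
  set M : ℝ := ∑ i : Fin 14, C (frq i) with hM
  have hM0 : 0 < M := Finset.sum_pos (fun i _ => hC _) ⟨0, Finset.mem_univ _⟩
  -- the approximations
  have hε : ∀ n : ℕ, 0 < 1 / (2 * M * ((n : ℝ) + 1)) := fun n => by positivity
  have hap : ∀ (n : ℕ) (i : Fin 14), ∃ β β' : ℂ → ℂ, Good β β' ∧
      Near (1 / (2 * M * ((n : ℝ) + 1))) β β' (bb i) := fun n i =>
    hK (bb i) (hbb i).1 (hbb i).2 _ (hε n)
  choose β β' hgood hnear using hap
  set Θ₀ : V4 → V4 := Th (fun i => up (bb i)) with hΘ₀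
  set L₀ : V4 → V4 →L[ℂ] V4 := ThD (fun i => up (bb i)) (fun i => up (deriv (bb i))) with hL₀
  have hΘ₀c : Continuous Θ₀ := th_cont _ fun i => (hcont (frq i) _ (hbb i).1 (hbb i).2).1
  have hL₀c : Continuous L₀ := by
    rw [← continuousOn_univ]
    exact th_contD _ _ _ fun i => (hcont (frq i) _ (hbb i).1 (hbb i).2).2.continuousOn
  have hopen : IsOpen {P : V4 | |(P 3).re| < 1} :=
    isOpen_lt ((Complex.continuous_re.comp (continuous_apply 3)).abs) continuous_const
  have hder : ∀ n P, |(P 3).re| < 1 → HasFDerivAt (Th (β n)) (ThD (β n) (β' n) P) P := fun n P hP =>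
    th_fderiv h3 _ _ (hgood n) P hP
  have hΘc : ∀ n, ContinuousOn (Th (β n)) {P : V4 | |(P 3).re| < 1} := fun n P hP =>
    (hder n P hP).continuousAt.continuousWithinAt
  have hDc : ∀ n, ContinuousOn (ThD (β n) (β' n)) {P : V4 | |(P 3).re| < 1} := fun n =>
    th_contD _ _ _ fun i => (h3 _ _ (hgood n i) (frq i)).2
  have hsum : ∀ (n : ℕ) (j : Fin 4), (∑ i : Fin 14, if cmp i = j then
      C (frq i) * (1 / (2 * M * ((n : ℝ) + 1))) else 0) ≤ 1 / (2 * ((n : ℝ) + 1)) := by
    intro n j
    calc (∑ i : Fin 14, if cmp i = j then C (frq i) * (1 / (2 * M * ((n : ℝ) + 1))) else 0)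
        ≤ ∑ i : Fin 14, C (frq i) * (1 / (2 * M * ((n : ℝ) + 1))) := by
          refine Finset.sum_le_sum fun i _ => ?_
          split_ifs
          · exact le_rfl
          · exact mul_nonneg (hC _).le (hε n).le
      _ = M * (1 / (2 * M * ((n : ℝ) + 1))) := by rw [← Finset.sum_mul]
      _ = 1 / (2 * ((n : ℝ) + 1)) := by field_simp
  have hpos : ∀ n : ℕ, 0 < 1 / (2 * ((n : ℝ) + 1)) := fun n => by positivity
  have hc1 : ∀ (n : ℕ) (P : V4), Core P → |(P 3).im| ≤ 8 →
      ‖Th (β n) P - Θ₀ P‖ ≤ 1 / (2 * ((n : ℝ) + 1)) := by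
    intro n P hP hP8
    refine (pi_norm_le_iff_of_nonneg (hpos n).le).2 fun j => ?_
    by_cases hj : j = 3
    · subst hj
      simp only [Pi.sub_apply, hΘ₀, Th, if_true, sub_self, norm_zero]
      exact (hpos n).le
    · simp only [Pi.sub_apply, hΘ₀, Th, hj, if_false]
      rw [← Finset.sum_sub_distrib]
      refine (norm_sum_le _ _).trans (le_trans (Finset.sum_le_sum fun i _ => ?_) (hsum n j))
      split_ifs with hc
      · exact (hclo (frq i) (bb i) (β n i) (β' n i) _ (hbb i).1 (hbb i).2 (hε n) (hnear n i) P hP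
          hP8).1
      · simp
  have hc2 : ∀ (n : ℕ) (P : V4), Core P → |(P 3).im| ≤ 8 →
      ‖ThD (β n) (β' n) P - L₀ P‖ ≤ 1 / (2 * ((n : ℝ) + 1)) := by
    intro n P hP hP8
    refine ContinuousLinearMap.opNorm_le_bound _ (hpos n).le fun v => ?_
    refine (pi_norm_le_iff_of_nonneg (mul_nonneg (hpos n).le (norm_nonneg _))).2 fun j => ?_
    by_cases hj : j = 3
    · subst hj
      simp only [sub_apply, Pi.sub_apply, hL₀, ThD, ContinuousLinearMap.coe_pi',
        if_true, sub_self, norm_zero]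
      exact mul_nonneg (hpos n).le (norm_nonneg _)
    · have e : (ThD (β n) (β' n) P - L₀ P) v j =
          (∑ i : Fin 14, if cmp i = j then (TD (β n i) (β' n i) (frq i) P -
            TD (up (bb i)) (up (deriv (bb i))) (frq i) P) else 0) v := by
        simp only [sub_apply, Pi.sub_apply, hL₀, ThD, ContinuousLinearMap.coe_pi',
          hj, if_false, sum_apply]
        rw [← Finset.sum_sub_distrib]
        refine Finset.sum_congr rfl fun i _ => ?_
        split_ifs <;> simp
      rw [e]
      refine (ContinuousLinearMap.le_opNorm _ _).trans ?_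
      refine mul_le_mul_of_nonneg_right ?_ (norm_nonneg _)
      refine (norm_sum_le _ _).trans (le_trans (Finset.sum_le_sum fun i _ => ?_) (hsum n j))
      split_ifs with hc
      · exact (hclo (frq i) (bb i) (β n i) (β' n i) _ (hbb i).1 (hbb i).2 (hε n) (hnear n i) P hP
          hP8).2
      · simp
  -- the neighbourhoods
  have hn1 : ∀ n : ℕ, ∃ δ : ℝ, 0 < δ ∧ ∀ P, P ∈ Unb δ → Box P →
      ‖Th (β n) P - Θ₀ P‖ ≤ 2 * (1 / (2 * ((n : ℝ) + 1))) := fun n =>
    nbh h2 (fun P => ‖Th (β n) P - Θ₀ P‖) _ (hpos n)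
      (((hΘc n).sub hΘ₀c.continuousOn).norm) (hc1 n)
  have hn2 : ∀ n : ℕ, ∃ δ : ℝ, 0 < δ ∧ ∀ P, P ∈ Unb δ → Box P →
      ‖ThD (β n) (β' n) P - L₀ P‖ ≤ 2 * (1 / (2 * ((n : ℝ) + 1))) := fun n =>
    nbh h2 (fun P => ‖ThD (β n) (β' n) P - L₀ P‖) _ (hpos n)
      (((hDc n).sub hL₀c.continuousOn).norm) (hc2 n)
  choose δ₁ hδ₁ hb1 using hn1
  choose δ₂ hδ₂ hb2 using hn2
  have hmono : ∀ {a b : ℝ} {P : V4}, a ≤ b → P ∈ Unb a → P ∈ Unb b := by
    rintro a b P hab ⟨x1, x2, x3, x4⟩
    exact ⟨x1.trans_le hab, x2.trans_le hab, x3.trans_le hab, x4.trans_le hab⟩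
  have hδ : ∀ n, 0 < min (min (δ₁ n) (δ₂ n)) 1 := fun n =>
    lt_min (lt_min (hδ₁ n) (hδ₂ n)) one_pos
  have hstrip : ∀ n P, P ∈ Unb (min (min (δ₁ n) (δ₂ n)) 1) → |(P 3).re| < 1 := fun n P hP =>
    (hmono (min_le_right _ _) hP).2.2.2
  have h2e : ∀ n : ℕ, 2 * (1 / (2 * ((n : ℝ) + 1))) = 1 / ((n : ℝ) + 1) := fun n => by
    field_simp
  obtain ⟨n, η, hη, hE⟩ := h7 Θ₀ L₀ (fun n => Th (β n)) (fun n => min (min (δ₁ n) (δ₂ n)) 1)
    hΘ₀c hL₀c hδ (fun n P hP => (hder n P (hstrip n P hP)).differentiableAt)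
    (fun n P => th_inv h1 (β n) P)
    (fun n P hP hB => by
      refine ⟨?_, ?_⟩
      · rw [← h2e]
        exact hb1 n P (hmono ((min_le_left _ _).trans (min_le_left _ _)) hP) hB
      · rw [(hder n P (hstrip n P hP)).fderiv, ← h2e]
        exact hb2 n P (hmono ((min_le_left _ _).trans (min_le_right _ _)) hP) hB)
    (by
      -- injectivity of the model modulo Γ
      have hsame : ∀ P P' : V4, Core P → Core P' → 0 ≤ (P 3).im → (P 3).im ≤ 2 * Real.pi →
          (P' 3).im = (P 3).im → Θ₀ P = Θ₀ P' → GamRel P P' := by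
        intro P P' hP hP' h0 h1' he hΘ
        obtain ⟨m, m0, m1, m2⟩ := h5.1 (P 3).im P P' (fun j hj => by
          have a := congrFun hΘ j
          simp only [hΘ₀, Th, hj, if_false] at a
          rw [hM1 P h0 h1' j hj, hM1 P' (by rw [he]; exact h0) (by rw [he]; exact h1') j hj, he] at a
          exact a)
        refine ⟨0, m, ?_⟩
        have e3 : P' 3 = P 3 := Complex.ext (by rw [hP 3, hP' 3]) he
        funext j
        fin_cases j
        · exact m0
        · exact m1
        · exact m2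
        · exact e3
      have hinv := fun P => th_inv h1 (fun i => up (bb i)) P
      have hg1 : ∀ P, GamRel P (gE P) := fun P => ⟨1, 0, by
        funext j; fin_cases j <;> simp [tE]⟩
      have hcore : ∀ P, Core P → Core (gE P) := fun P hP => by
        have := h1.2.2.2.1 1 P hP
        simpa using this
      have him : ∀ P : V4, (gE P 3).im = (P 3).im + 2 * Real.pi := fun P => by
        have : gE P 3 = P 3 + 2 * Real.pi * Complex.I := rfl
        rw [this]; simp
      intro P P' hP hP' h0 h1' h0' h1'' hΘ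
      have e3 : Complex.exp (P 3) = Complex.exp (P' 3) := by
        have a := congrFun hΘ 3
        simpa only [hΘ₀, Th, if_true] using a
      obtain ⟨N, hN⟩ := Complex.exp_eq_exp_iff_exists_int.1 e3
      have hN' : (P 3).im = (P' 3).im + N * (2 * Real.pi) := by
        rw [hN]; simp
      have hpi := Real.pi_pos
      have hsym := h1.2.2.2.2.2.2.1
      have htr := h1.2.2.2.2.2.2.2.1
      have hNb1 : (N : ℝ) ≤ 1 := by
        by_contra hc; push Not at hc; nlinarith
      have hNb2 : -1 ≤ (N : ℝ) := by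
        by_contra hc; push Not at hc; nlinarith
      have hNc : N = 0 ∨ N = 1 ∨ N = -1 := by
        have b1 : N ≤ 1 := by exact_mod_cast hNb1
        have b2 : -1 ≤ N := by exact_mod_cast hNb2
        omega
      rcases hNc with rfl | rfl | rfl
      · exact hsame P P' hP hP' h0 h1' (by rw [hN']; simp) hΘ
      · -- Im P = Im P' + 2π
        have a : (P 3).im = 2 * Real.pi := by push_cast at hN'; linarith
        have b : (P' 3).im = 0 := by push_cast at hN'; linarith
        have c := hsame P (gE P') hP (hcore _ hP') h0 h1' (by rw [him, a, b, zero_add])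
          (hΘ.trans (hinv P').1.symm)
        exact htr _ _ _ c (hsym _ _ (hg1 P'))
      · have a : (P' 3).im = 2 * Real.pi := by push_cast at hN'; linarith
        have b : (P 3).im = 0 := by push_cast at hN'; linarith
        have c := hsame (gE P) P' (hcore _ hP) hP' (by rw [him, b]; linarith)
          (by rw [him, b]; linarith) (by rw [him, a, b, zero_add]) ((hinv P).1.trans hΘ)
        exact htr _ _ _ (hg1 P) c)
    (by
      intro P hP h0 h1' v hv
      have v3 : v 3 = 0 := by
        have a := congrFun hv 3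
        simp only [hL₀, ThD, ContinuousLinearMap.coe_pi', if_true, Pi.zero_apply] at a
        have a' : Complex.exp (P 3) * v 3 = 0 := a
        exact (mul_eq_zero.1 a').resolve_left (Complex.exp_ne_zero _)
      obtain ⟨a0, a1, a2⟩ := h5.2 (P 3).im P v (fun j hj => by
        rw [← hM2 P h0 h1' v v3 j hj]
        have a := congrFun hv j
        simp only [hL₀, ThD, ContinuousLinearMap.coe_pi', hj, if_false, Pi.zero_apply,
          sum_apply] at a
        refine Eq.trans (Finset.sum_congr rfl fun i _ => ?_) a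
        split_ifs <;> rfl)
      funext j
      fin_cases j
      · exact a0
      · exact a1
      · exact a2
      · exact v3)
  exact ⟨η, hη, _, hE⟩

end Pool.Agent.Helper10.AB
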