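import Pool.Agent.Helper24.AB.Defs

/-!
# Project AB (MP_1ef41b_an), module EMB: goals and definitions

Target: `Pool.Agent.Helper24.AB.S_EMB` (Section 4 of PAPER.md).  A packet proves ONE of the `def S_... : Prop` below
(its docstring is the complete proof).  The assembly is `Pool/Agent/Helper10/AB/FinEMB.lean`.
-/

open Set Filter Topology
open scoped ContDiff

noncomputable section

namespace Pool.Agent.Helper10.AB

open Pool.Agent.Helper24.AB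

/-! ## Definitions -/

/-- The linear part of `gE`. -/
def gLin : V4 ≃ₗ[ℂ] V4 where
  toFun P := ![2 * P 0 + P 1, P 0 + P 1, P 2, P 3]
  invFun P := ![P 0 - P 1, 2 * P 1 - P 0, P 2, P 3]
  map_add' P Q := by
    funext i; fin_cases i <;> simp <;> ring
  map_smul' c P := by
    funext i; fin_cases i <;> simp <;> ring
  left_inv P := by
    funext i; fin_cases i <;> simp <;> ring
  right_inv P := by
    funext i; fin_cases i <;> simp <;> ring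

/-- The linear part of `gE` as a continuous linear equivalence. -/
def gL : V4 ≃L[ℂ] V4 := gLin.toContinuousLinearEquiv

/-- The linear part of `gE ^ k`, `k ∈ ℤ`. -/
def gk (k : ℤ) : V4 →L[ℂ] V4 := ((gL ^ k : V4 ≃L[ℂ] V4) : V4 →L[ℂ] V4)

/-- The monomial `e^{J·Z}` (it does not depend on `w = P 3`). -/
def mon (J : Fin 3 → ℤ) (P : V4) : ℂ :=
  Complex.exp ((J 0 : ℂ) * P 0 + (J 1 : ℂ) * P 1 + (J 2 : ℂ) * P 2)

/-- The linear form `J·dZ`. -/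
def lJ (J : Fin 3 → ℤ) : V4 →L[ℂ] ℂ :=
  (J 0 : ℂ) • ContinuousLinearMap.proj (R := ℂ) (φ := fun _ : Fin 4 => ℂ) 0 +
    (J 1 : ℂ) • ContinuousLinearMap.proj (R := ℂ) (φ := fun _ : Fin 4 => ℂ) 1 +
    (J 2 : ℂ) • ContinuousLinearMap.proj (R := ℂ) (φ := fun _ : Fin 4 => ℂ) 2

/-- The linear form `dw`. -/
def dw : V4 →L[ℂ] ℂ := ContinuousLinearMap.proj (R := ℂ) (φ := fun _ : Fin 4 => ℂ) 3

/-- The function `β(-iw) e^{J·Z}`;  `-iw = t - iσ`. -/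
def hC (β : ℂ → ℂ) (J : Fin 3 → ℤ) (P : V4) : ℂ := β (-(Complex.I * P 3)) * mon J P

/-- The derivative of `hC β J` at `P` if `β'` is the derivative of `β`. -/
def hD (β β' : ℂ → ℂ) (J : Fin 3 → ℤ) (P : V4) : V4 →L[ℂ] ℂ :=
  (β (-(Complex.I * P 3)) * mon J P) • lJ J +
    (-(Complex.I * β' (-(Complex.I * P 3))) * mon J P) • dw

/-- The Poincaré series of `hC β J`. -/
def TS (β : ℂ → ℂ) (J : Fin 3 → ℤ) (P : V4) : ℂ := ∑' k : ℤ, hC β J ((gE ^ k) P)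

/-- Its derivative. -/
def TD (β β' : ℂ → ℂ) (J : Fin 3 → ℤ) (P : V4) : V4 →L[ℂ] ℂ :=
  ∑' k : ℤ, (hD β β' J ((gE ^ k) P)).comp (gk k)

/-- A function of a real variable as a function of `ζ`: `TS (up b) J P` is the series with the coefficients
`b(t + 2πk)`, `t = Im (P 3)` (because `Re (-i P 3) = Im (P 3)`). -/
def up (b : ℝ → ℝ) (ζ : ℂ) : ℂ := (b ζ.re : ℂ)

/-- `β` is holomorphic in the strip `|Im ζ| < 1` and decays like `exp(-c cosh Re ζ)`. -/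
structure Good (β β' : ℂ → ℂ) : Prop where
  der : ∀ ζ : ℂ, |ζ.im| < 1 → HasDerivAt β (β' ζ) ζ
  cont : ContinuousOn β' {ζ : ℂ | |ζ.im| < 1}
  bd : ∃ C c : ℝ, 0 < c ∧ ∀ ζ : ℂ, |ζ.im| < 1 →
    ‖β ζ‖ ≤ C * Real.exp (-(c * Real.cosh ζ.re)) ∧ ‖β' ζ‖ ≤ C * Real.exp (-(c * Real.cosh ζ.re))

/-- `(β, β')` is `ε`-close to `(b, b')` on the real line, with weight `e^{-|x|}`. -/
def Near (ε : ℝ) (β β' : ℂ → ℂ) (b : ℝ → ℝ) : Prop := ∀ x : ℝ,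
  ‖β x - (b x : ℂ)‖ ≤ ε * Real.exp (-|x|) ∧ ‖β' x - ((deriv b x : ℝ) : ℂ)‖ ≤ ε * Real.exp (-|x|)

/-- The core `Re P = 0`. -/
def Core (P : V4) : Prop := ∀ i, (P i).re = 0

/-- The box `-1 ≤ Im P ≤ 8` (`2π < 7`). -/
def Box (P : V4) : Prop := ∀ i, -1 ≤ (P i).im ∧ (P i).im ≤ 8

/-! ## The isotopy -/

/-- `ϑ(x) = (π/2) smoothTransition x`: `0` for `x ≤ 0`, `π/2` for `x ≥ 1`. -/
def th (x : ℝ) : ℝ := Real.pi / 2 * Real.smoothTransition x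
/-- `c(t) = cos² ϑ(t)` etc.; the first stage is `cc (t-1)`, the second `cc (t-4)`. -/
def cc (x : ℝ) : ℝ := Real.cos (th x) ^ 2
def ss (x : ℝ) : ℝ := Real.sin (th x) ^ 2
def dd (x : ℝ) : ℝ := Real.sin (th x) * Real.cos (th x)

/-- The partition of unity: `∑ₖ χ(t+2πk) = 1`. -/
def chi (t : ℝ) : ℝ :=
  Real.smoothTransition (t + 1 / 2) - Real.smoothTransition (t + 1 / 2 - 2 * Real.pi)

/-- The coefficients of the 14 monomials. -/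
def coef : Fin 14 → ℝ → ℝ
  | 0 => fun t => dd (t - 1)
  | 1 => fun t => -dd (t - 1)
  | 2 => fun t => cc (t - 1)
  | 3 => fun t => ss (t - 1)
  | 4 => fun t => dd (t - 4)
  | 5 => fun t => -dd (t - 4)
  | 6 => fun t => cc (t - 4)
  | 7 => fun t => ss (t - 4)
  | 8 => fun t => cc (t - 1)
  | 9 => fun t => ss (t - 1) - ss (t - 4)
  | 10 => fun t => dd (t - 1)
  | 11 => fun t => dd (t - 4) - dd (t - 1)
  | 12 => fun t => -dd (t - 4)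
  | 13 => fun t => ss (t - 4)

/-- The exponents of the 14 monomials, `z₁ = (1,0,0)`, `z₂ = (0,1,0)`, `z₃ = (-1,-1,1)`. -/
def frq : Fin 14 → Fin 3 → ℤ
  | 0 => ![-1, -1, 1]
  | 1 => ![-1, -2, 1]
  | 2 => ![1, 0, 0]
  | 3 => ![1, -1, 0]
  | 4 => ![-1, 0, 1]
  | 5 => ![-2, 1, 1]
  | 6 => ![0, 1, 0]
  | 7 => ![-1, 2, 0]
  | 8 => ![-1, -1, 1]
  | 9 => ![-1, 0, 1]
  | 10 => ![1, 1, 0]
  | 11 => ![1, 0, 0]
  | 12 => ![0, 1, 0]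
  | 13 => ![0, -1, 1]

/-- The component (0, 1, 2) in which the monomial stands. -/
def cmp : Fin 14 → Fin 4
  | 0 => 0
  | 1 => 0
  | 2 => 0
  | 3 => 0
  | 4 => 1
  | 5 => 1
  | 6 => 1
  | 7 => 1
  | 8 => 2
  | 9 => 2
  | 10 => 2
  | 11 => 2
  | 12 => 2
  | 13 => 2

/-- The coefficient functions of the Poincaré series. -/
def bb (i : Fin 14) (t : ℝ) : ℝ := chi t * coef i t

/-- The `j`-th component of the isotopy `F(Z, t)`. -/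
def F0 (j : Fin 4) (P : V4) (t : ℝ) : ℂ :=
  ∑ i : Fin 14, if cmp i = j then (coef i t : ℂ) * mon (frq i) P else 0

/-- Its derivative with respect to `Z` in the direction `v`. -/
def D0 (j : Fin 4) (P : V4) (t : ℝ) (v : V4) : ℂ :=
  ∑ i : Fin 14, if cmp i = j then (coef i t : ℂ) * mon (frq i) P * lJ (frq i) v else 0

/-- The map `Θ` built from functions `β i`. -/
def Th (β : Fin 14 → ℂ → ℂ) (P : V4) : V4 := fun j =>
  if j = 3 then Complex.exp (P 3) else ∑ i : Fin 14, if cmp i = j then TS (β i) (frq i) P else 0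

/-- Its derivative. -/
def ThD (β β' : Fin 14 → ℂ → ℂ) (P : V4) : V4 →L[ℂ] V4 :=
  ContinuousLinearMap.pi fun j =>
    if j = 3 then Complex.exp (P 3) • dw
    else ∑ i : Fin 14, if cmp i = j then TD (β i) (β' i) (frq i) P else 0

/-! ## The goals -/

/-- PACKET ACT1 (1.2 h): the group action.

PROOF.  (1) `gE P j = gL P j + (if j = 3 then 2πi else 0)` by cases on `j`; induction over `k : ℤ` (`Int.induction_on`,
`zpow_add_one`, `zpow_sub_one`, `Equiv.Perm.mul_apply`; `gk (k+1) = gk k ∘ gL`, and `gL` does not change the coordinate 3 and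
maps the vector `c • e₃` to itself).
(2) sup norm on `Fin 4 → ℂ`: `‖gL P‖ ≤ 3‖P‖` (rows `2+1, 1+1, 1, 1`), `‖gL⁻¹ P‖ ≤ 3‖P‖` (rows `1+1, 1+2, 1, 1`), induction.
(3) induction.   (4) `Core (gE P)`, `Core (gE⁻¹ P)` and induction.
(5) for `k = 1`: `m' = (2m₀+m₁, m₀+m₁, m₂)`, for `k = -1`: `m' = (m₀-m₁, 2m₁-m₀, m₂)`, induction.
(6) `GamRel P P`: `j = 0, k = 0`.  Symmetry: `P' = tE k (gE^j P)`, so `gE^j P = tE (-k) P'` and `P = gE^(-j) (tE (-k) P') =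
tE k' (gE^(-j) P')` by (5).  Transitivity: `R = tE k' (gE^j' (tE k (gE^j P))) = tE (k'+k'') (gE^(j'+j) P)` by (5)
(`tE k' (tE k'' P) = tE (k'+k'') P`).
(7) `k = -⌊Im (P 3) / 2π⌋` (by (1) and (3) `Im ((gE^k P) 3) = Im (P 3) + 2πk`), then `m i = -⌊Im (..) / 2π⌋`.
(8) `TS β J (gE P) = ∑' k, hC β J (gE^(k+1) P)`: `Equiv.tsum_eq (Equiv.addRight 1)` (no summability is needed).
`hC β J (gE^k (tE m P)) = hC β J (tE m' (gE^k P)) = hC β J (gE^k P)`: `mon J (tE m' P) = mon J P * exp (2πi (J·m'))` and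
`Complex.exp_int_mul_two_pi_mul_I`. -/
def S_ACT1 : Prop :=
  (∀ (k : ℤ) (P : V4), (gE ^ k) P =
    fun j => gk k P j + if j = 3 then 2 * Real.pi * Complex.I * k else 0) ∧
  (∀ k : ℤ, ‖gk k‖ ≤ (3 : ℝ) ^ k.natAbs) ∧
  (∀ (k : ℤ) (v : V4), gk k v 3 = v 3) ∧
  (∀ (k : ℤ) (P : V4), Core P → Core ((gE ^ k) P)) ∧
  (∀ (k : ℤ) (m : Fin 3 → ℤ), ∃ m' : Fin 3 → ℤ, ∀ P, (gE ^ k) (tE m P) = tE m' ((gE ^ k) P)) ∧
  (∀ P, GamRel P P) ∧ (∀ P Q, GamRel P Q → GamRel Q P) ∧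
  (∀ P Q R, GamRel P Q → GamRel Q R → GamRel P R) ∧
  (∀ P, ∃ (k : ℤ) (m : Fin 3 → ℤ), ∀ i, 0 ≤ (tE m ((gE ^ k) P) i).im ∧
    (tE m ((gE ^ k) P) i).im < 2 * Real.pi) ∧
  (∀ (β : ℂ → ℂ) (J : Fin 3 → ℤ) (P : V4), TS β J (gE P) = TS β J P ∧
    ∀ m, TS β J (tE m P) = TS β J P)

/-- PACKET ACT2 (1 h): the neighbourhoods `Unb η` (recall `kap = log lam / (2π)`, so `exp (2π kap) = lam`; `ph² = ph + 1`,
`ph + ph' = 1`, `ph ph' = -1`, `lam = ph² = ph + 1`, `lam⁻¹ = ph'^2 = 2 - ph`).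

PROOF.  (1) `xp (gE P) = lam * xp P`, `xm (gE P) = lam⁻¹ * xm P` [(2X₀+X₁) - ph'(X₀+X₁) = (2-ph')X₀ + (1-ph')X₁ and
`2 - ph' = ph + 1 = lam`, `1 - ph' = ph = -lam ph'`; `ph(X₀+X₁) - (2X₀+X₁) = (ph-2)X₀ + (ph-1)X₁`, `lam⁻¹ = 2 - ph`,
`ph - 1 = (2-ph) ph`], `Im (gE P 3) = Im (P 3) + 2π`, so `exp(-kap Im) xp` and `exp(kap Im) xm` do not change.
(2) `tE` does not change real parts and `P 3`.   (3) continuity.   (4) all real parts vanish.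
(5) `|Im (P 3)| ≤ 8`: `|xp P| ≤ η exp(8 kap)`, `|xm P| ≤ η exp(8 kap)`, and `X₀ = ph xp + ph' xm`, `X₁ = xp + xm`
(`ph - ph' = √5`).  `η ≥ 0` because `|..| < η`.
(6) `Q = (1-s)P + sP'`: `|xp Q| ≤ (1-s) η exp(kap t) + s η exp(kap t')` (`xp` is linear) and
`exp(-kap t_Q) exp(kap t) ≤ exp(kap |t-t'|) ≤ exp kap ≤ 2` (`kap ≤ 1/2`: `log lam ≤ 1 ≤ π`, `lam < 2.7 < e`), same with `t'`;
same for `xm`; the other two are convex. -/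
def S_ACT2 : Prop :=
  (∀ (η : ℝ) (P : V4), gE P ∈ Unb η ↔ P ∈ Unb η) ∧
  (∀ (η : ℝ) (k : Fin 3 → ℤ) (P : V4), tE k P ∈ Unb η ↔ P ∈ Unb η) ∧
  (∀ η : ℝ, IsOpen (Unb η)) ∧
  (∀ (η : ℝ) (P : V4), 0 < η → Core P → P ∈ Unb η) ∧
  (∃ C : ℝ, 0 < C ∧ ∀ (η : ℝ) (P : V4), P ∈ Unb η → Box P → ∀ i, |(P i).re| ≤ C * η) ∧
  (∀ (η : ℝ) (P P' : V4), P ∈ Unb η → P' ∈ Unb η → |(P 3).im - (P' 3).im| ≤ 1 →
    segment ℝ P P' ⊆ Unb (2 * η))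

/-- PACKET KER (1.5 h): approximation of `b ∈ C¹_c(ℝ)` by functions holomorphic in the strip with double exponential decay.

PROOF.  Logistic function `L(ζ) = 1/(1+exp(-ζ))`.  For `|Im ζ| ≤ 1`: `Re(1+exp(-ζ)) = 1 + e^{-x} cos(y) ≥ 1`, so `|L(ζ)| ≤ 1`,
`|1-L| = |L(-ζ)| ≤ 1`, `L` is holomorphic and `L' = L(1-L)`.  On `ℝ`: `0 < L < 1`, strictly increasing, inverse
`λ(y) = log(y/(1-y))` on `(0,1)`.
Let `g(x) = b(x) exp(cosh x)`, `C¹` with support in `[-R, R]`, and `K(y) = g'(λ(y)) / (y(1-y))` for `y ∈ (0,1)`, `K = 0` else.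
`K` is continuous on `[0,1]` (it vanishes for `y < L(-R)` and for `y > L(R)`), and `K(L(x)) L'(x) = g'(x)`.
Weierstrass (`exists_polynomial_near_of_continuousOn 0 1 K`): a real polynomial `p` with `|p - K| < ε₁` on `[0,1]`.  Let `q` be
the polynomial with `q' = p`, `q(0) = 0` (`∑ C (p.coeff n / (n+1)) * X^(n+1)`).  Then for real `x`:
`|q(L(x)) - g(x)| ≤ ε₁` [the function `x ↦ q(L(x)) - g(x)` has derivative `(p(L) - K(L)) L'`, absolute value `≤ ε₁ L'(x)`; for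
`x₀ < -R`, `g(x₀) = 0`, so `|q(L(x)) - g(x)| ≤ |q(L(x₀))| + ε₁ (L(x) - L(x₀)) `, and `x₀ → -∞`: `L(x₀) → 0`, `q(0) = 0`;
or: mean value inequality with the monotone functions `ε₁ L ± (q∘L - g)`].
Let `β(ζ) = exp(-cosh ζ) q(L(ζ))`, `β'(ζ) = -sinh ζ exp(-cosh ζ) q(L) + exp(-cosh ζ) p(L) L (1-L)`.
Good: `Re cosh ζ = cosh x cos y ≥ cosh x / 2` for `|y| < 1` (`cos 1 ≥ 1/2`, `Real.cos_one_pos`/`Real.one_sub_sq_div_two_le_cos`),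
`|sinh ζ| ≤ cosh x`, `|q(L)| ≤ C`, `|p(L)| ≤ C` (sum of the absolute values of the coefficients), and
`cosh x e^{-cosh x/2} ≤ 4 e^{-cosh x/4}` (`y ≤ 4 e^{y/4}`); take `c = 1/4`.
Near: with `E = e^{-cosh x}`: `b = E g`, `b' = -sinh x E g + E g'`, so `|β - b| ≤ E ε₁`, `|β' - b'| ≤ (|sinh x| + 1) E ε₁ ≤
2 cosh x E ε₁` and `cosh x e^{-cosh x} ≤ 1/cosh x ≤ 2 e^{-|x|}` (`y² ≤ e^y` for `y ≥ 1`... or `≤ 4/ cosh x`).  Take `ε₁ = ε/16`. -/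
def S_KER : Prop := ∀ b : ℝ → ℝ, ContDiff ℝ 1 b → HasCompactSupport b → ∀ ε : ℝ, 0 < ε →
  ∃ β β' : ℂ → ℂ, Good β β' ∧ Near ε β β' b

/-- PACKET SER (1.5 h): the Poincaré series is differentiable (`S_ACT1` may be used: the packet proves `S_ACT1 → S_SER`).

PROOF.  Fix `J`, `R > 0`, `N = |J₀|+|J₁|+|J₂|`, `s = {P : ‖P‖ < R, |Re P₃| < 1}`, open and convex (preconnected).
`f_k(P) = hC β J ((gE^k) P)`, `f'_k(P) = (hD β β' J ((gE^k) P)).comp (gk k)`.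
`HasFDerivAt f_k (f'_k P) P`: chain rule, `(gE^k) P = gk k P + const` (S_ACT1), `-i (gE^k P)₃ = -i P₃ + 2πk` has imaginary part
`-Re P₃` and real part `Im P₃ + 2πk`.
For `P ∈ s`: `|(gE^k P)_j| ≤ 3^|k| R` for `j = 0,1,2`, so `|mon J (gE^k P)| ≤ exp(N R 3^|k|)`.
`cosh(Im P₃ + 2πk) ≥ ½ exp|Im P₃ + 2πk| ≥ ½ e^{-R} e^{2π|k|} ≥ ½ e^{-R} 9^|k|`.
So `‖f_k(P)‖, ‖f'_k(P)‖ ≤ u_k := C (N+1) x exp(N R x - B x²)`, `x = 3^|k|`, `B = c e^{-R}/2`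
(`‖lJ J‖ ≤ N`, `‖dw‖ ≤ 1`, `‖gk k‖ ≤ 3^|k|`).
`A x - B x² ≤ -x + (A+1)²/(4B)` and `x³ ≤ 6 e^x`, so `u_k ≤ C' / x² = C' 9^{-|k|}`, summable over `ℤ`
(`Summable.of_nat_of_neg`).
Now `hasFDerivAt_tsum_of_isPreconnected` and `continuousOn_tsum` on `s`; `R` is arbitrary (`continuousOn` is local:
every `P` with `|Re P₃| < 1` has the neighbourhood `s` with `R = ‖P‖ + 1`). -/
def S_SER : Prop := ∀ β β' : ℂ → ℂ, Good β β' → ∀ J : Fin 3 → ℤ,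
  (∀ P : V4, |(P 3).re| < 1 → HasFDerivAt (TS β J) (TD β β' J P) P) ∧
  ContinuousOn (TD β β' J) {P : V4 | |(P 3).re| < 1}

/-- PACKET CLO (1.5 h): closeness on the core and continuity of the model (`S_ACT1 → S_CLO`).

PROOF.  (1) Continuity: `b` is continuous with support in `[-K, K]`.  On the open set `|Im P₃| < R` the terms of `TS (up b) J`
and of `TD (up b) (up (deriv b)) J` vanish for `|k| > K + R` (then `|Im P₃ + 2πk| > K`; also `deriv b = 0` outside of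
`[-K, K]`, because the support of `deriv b` is in the topological support of `b`), so there
they are finite sums (`tsum_eq_sum`) of continuous functions (`gE^k` is continuous by the formula in S_ACT1).
(2) Closeness: let `P` be in the core, `|Im P₃| ≤ 8`.  All `gE^k P` are in the core, so `|mon J (gE^k P)| = 1` and
`-i (gE^k P)₃ = x_k`, `x_k = Im P₃ + 2πk` real.  So `‖hC β J (gE^k P) - hC (up b) J (gE^k P)‖ = |β(x_k) - b(x_k)| ≤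
ε e^{-|x_k|} ≤ ε e^8 e^{-2π|k|} ≤ ε e^8 9^{-|k|}`, and for the derivatives `≤ (N+1) ε e^8 9^{-|k|} 3^|k|`,
`N = |J₀|+|J₁|+|J₂|` (`‖lJ J‖ ≤ N`, `‖dw‖ ≤ 1`, `‖gk k‖ ≤ 3^|k|`).  The series of the `up b` is summable (finite support), the
difference is summable, so both are, and `Summable.tsum_sub`, `tsum_of_norm_bounded`.  `C = (N+1) e^8 ∑_k 3^{-|k|}`. -/
def S_CLO : Prop := ∀ J : Fin 3 → ℤ,
  (∀ b : ℝ → ℝ, ContDiff ℝ 1 b → HasCompactSupport b →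
    Continuous (TS (up b) J) ∧ Continuous (TD (up b) (up (deriv b)) J)) ∧
  ∃ C : ℝ, 0 < C ∧ ∀ (b : ℝ → ℝ) (β β' : ℂ → ℂ) (ε : ℝ), ContDiff ℝ 1 b → HasCompactSupport b →
    0 < ε → Near ε β β' b → ∀ P : V4, Core P → |(P 3).im| ≤ 8 →
      ‖TS β J P - TS (up b) J P‖ ≤ C * ε ∧
      ‖TD β β' J P - TD (up b) (up (deriv b)) J P‖ ≤ C * ε

/-- PACKET ISO (1 h): the isotopy consists of injective immersions.

PROOF.  Let `z₁ = exp P₀, z₂ = exp P₁, z₃ = exp(P₂-P₀-P₁)`, all `≠ 0`; `mon (frq i) P` is the Laurent monomial in the list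
(`mon ![-1,-2,1] P = z₃/z₂`, ..., `mon ![-2,1,1] P = z₂² z₃/z₁`, `mon ![-1,2,0] P = z₂²/z₁`).
`cc + ss = 1`, `dd² = cc ss`; `(cc,ss,dd)(x) = (1,0,0)` for `x ≤ 0` and `(0,1,0)` for `x ≥ 1`
(`Real.smoothTransition.zero_of_nonpos`, `one_of_one_le`).
Case `t ≤ 3`: `(cc,ss,dd)(t-4) = (1,0,0)`; write `c,s,d` for `(cc,ss,dd)(t-1)`, `u = z₂`:
`F0 1 = u`, `F0 2 = (c+su) z₃ + d(u-1) z₁`, `F0 0 = d(1-1/u) z₃ + (c+s/u) z₁`; the matrix has determinant `1`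
(`(c+su)(c+s/u) - d²(u-1)²/u = c²+s²+2cs = 1`), so `z₃ = (c+s/u) F0 2 - d(u-1) F0 0`, `z₁ = (c+su) F0 0 - d(1-1/u) F0 2`.
Hence `F0` determines `z₁, z₂, z₃`.  `Complex.exp_eq_exp_iff_exists_int` gives `P'₀ - P₀, P'₁ - P₁ ∈ 2πiℤ` and
`(P'₂-P'₀-P'₁) - (P₂-P₀-P₁) ∈ 2πiℤ`.
Case `t ≥ 3`: `(cc,ss,dd)(t-1) = (0,1,0)`; `c,s,d` for `(cc,ss,dd)(t-4)`, `w₁ = z₁/z₂, w₂ = z₂, w₃ = z₂ z₃`, `u = w₁`:
`F0 0 = u`, `F0 2 = (c+su) w₃ + d(u-1) w₂`, `F0 1 = d(1-1/u) w₃ + (c+s/u) w₂`; same conclusion.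
(b) The linear version: with `ζ₁ = z₁ v₀, ζ₂ = z₂ v₁, ζ₃ = z₃ (v₂-v₀-v₁)`.  Case `t ≤ 3`: `D0 1 = ζ₂`, so `v₁ = 0`, and then
`D0 2 = (c+su) ζ₃ + d(u-1) ζ₁`, `D0 0 = d(1-1/u) ζ₃ + (c+s/u) ζ₁` (each term `mon (frq i) P * lJ (frq i) v`), so
`ζ₁ = ζ₃ = 0`.  Case `t ≥ 3`: with `ω₁ = w₁ (v₀-v₁)`, `ω₂ = w₂ v₁`, `ω₃ = w₃ (v₂-v₀)`: `D0 0 = ω₁`, so `v₀ = v₁`, then the same
with `ω₂, ω₃`. -/
def S_ISO : Prop :=
  (∀ (t : ℝ) (P P' : V4), (∀ j : Fin 4, j ≠ 3 → F0 j P t = F0 j P' t) →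
    ∃ m : Fin 3 → ℤ, P' 0 = P 0 + 2 * Real.pi * Complex.I * m 0 ∧
      P' 1 = P 1 + 2 * Real.pi * Complex.I * m 1 ∧ P' 2 = P 2 + 2 * Real.pi * Complex.I * m 2) ∧
  (∀ (t : ℝ) (P v : V4), (∀ j : Fin 4, j ≠ 3 → D0 j P t v = 0) → v 0 = 0 ∧ v 1 = 0 ∧ v 2 = 0)

/-- PACKET MOD (1.5 h): the model is the isotopy (`S_ACT1 → S_MOD`).

PROOF.  (a) `Real.smoothTransition` is smooth; `chi = 0` outside of `[-1/2, 2π+1/2]` (both terms are `0`, resp. `1`).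
(b) Let `t = Im P₃ ∈ [0, 2π]`, `t_k = t + 2πk`; `-i (gE^k P)₃` has real part `t_k`, so
`hC (up (bb i)) (frq i) (gE^k P) = chi(t_k) coef i (t_k) mon (frq i) (gE^k P)`.
Only `k = -1, 0, 1` contribute (`tsum_eq_sum` with the finset `{-1,0,1}`), so the sum over `i` is
`∑_{k=-1,0,1} chi(t_k) F0 j (gE^k P) t_k`.
KEY: `F0 j (gE P) (x+2π) = F0 j P x` for `|x| ≤ 1/2`, `j = 0,1,2`: for `x ≤ 1` all parameters are `(1,0,0)` and
`F0 0 = mon ![1,0,0], F0 1 = mon ![0,1,0], F0 2 = mon ![-1,-1,1]`; for `x+2π ≥ 5` all parameters are `(0,1,0)` and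
`F0 0 = mon ![1,-1,0], F0 1 = mon ![-1,2,0], F0 2 = mon ![0,-1,1]`; and `gE P = (2P₀+P₁, P₀+P₁, P₂, ..)`.
`k = 1`: `chi(t+2π) = 0` if `t > 1/2`, and by KEY (x = t) the term is `chi(t+2π) F0 j P t` in all cases.
`k = -1`: `chi(t-2π) = 0` if `t-2π < -1/2`, and by KEY (`x = t-2π`, the point `gE⁻¹ P`) it is `chi(t-2π) F0 j P t`.
Sum: `chi(t-2π) + chi t + chi(t+2π) = smoothTransition(t+2π+1/2) - smoothTransition(t-4π+1/2) = 1 - 0`.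
(c) The same for the derivatives: all terms of `TD` vanish for `k ∉ {-1,0,1}` except possibly where `deriv (bb i) ≠ 0`,
`chi = 0` near; `deriv (bb i) (t_k) = 0` for `|k| ≥ 2` because `bb i = 0` near `t_k`.  `TD .. P v = ∑_k (hD ..(gE^k P)) (gk k v)`
and `dw (gk k v) = v 3 = 0`, so the sum is `∑_{k=-1,0,1} chi(t_k) D0 j (gE^k P) t_k (gk k v)`;
KEY': `D0 j (gE P) (x+2π) (gk 1 v) = D0 j P x v` for `|x| ≤ 1/2` (same computation, `lJ J (gk 1 v)`, `gk 1 = gL`). -/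
def S_MOD : Prop :=
  (∀ i, ContDiff ℝ 1 (bb i) ∧ HasCompactSupport (bb i)) ∧
  (∀ P : V4, 0 ≤ (P 3).im → (P 3).im ≤ 2 * Real.pi → ∀ j : Fin 4, j ≠ 3 →
    (∑ i : Fin 14, if cmp i = j then TS (up (bb i)) (frq i) P else 0) = F0 j P (P 3).im) ∧
  (∀ P : V4, 0 ≤ (P 3).im → (P 3).im ≤ 2 * Real.pi → ∀ v : V4, v 3 = 0 → ∀ j : Fin 4, j ≠ 3 →
    (∑ i : Fin 14, if cmp i = j then TD (up (bb i)) (up (deriv (bb i))) (frq i) P v else 0) =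
      D0 j P (P 3).im v)

/-- PACKET CPT (2 h): the compactness argument (`S_ACT1 → S_ACT2 → S_CPT`).

PROOF.  Put `η_n = min (δ n / 2) (1/(n+1))`.
(A) For all large `n`: `det (fderiv (Θ n) P) ≠ 0` for all `P ∈ Unb η_n`.  Suppose not: a strictly increasing sequence of `n` and
`P_n ∈ Unb η_n` with `det = 0`.  By S_ACT1 (7) we can replace `P_n` by `γ P_n` with `0 ≤ Im < 2π` [`Θ n ∘ γ = Θ n`, so
`fderiv (Θ n) P = (fderiv (Θ n) (γP)).comp (gk j)` and `det (gk j) ≠ 0`, `gk j` is invertible; `γP ∈ Unb η_n` by S_ACT2; or argue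
with `∃ v ≠ 0, fderiv (Θ n) P v = 0`].  By S_ACT2 (5) `Re P_n → 0`; a subsequence converges (bounded in a finite dimensional
space, `tendsto_subseq_of_bounded`) to `P` in the core, `0 ≤ Im P_i ≤ 2π`.  `‖fderiv (Θ n) P_n - L₀ P_n‖ ≤ 1/(n+1)` and `L₀`
continuous: `fderiv (Θ n) P_n → L₀ P`, `det` is continuous, so `det (L₀ P) = 0`, but `L₀ P` is injective, contradiction.
(B) For all large `n`: `Θ n` is injective mod `Γ` on `Unb η_n`.  Suppose not: `P_n, P'_n ∈ Unb η_n`, `Θ n P_n = Θ n P'_n`, not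
`GamRel P_n P'_n`.  Normalize both (`0 ≤ Im < 2π`; `Θ n` is invariant under every `gE^k`, `tE m`; GamRel is an equivalence
relation), subsequence: `P_n → P`, `P'_n → P'`, both in the core with `0 ≤ Im ≤ 2π`.
`‖Θ n P_n - Θ₀ P_n‖ ≤ 1/(n+1)`, so `Θ₀ P = lim Θ n P_n = Θ₀ P'`, hence `P' = γ P`, `γ = tE m ∘ gE^j`.  `R_n = γ P_n ∈ Unb η_n`,
`R_n → γ P = P'` (`γ` is continuous), `Θ n R_n = Θ n P'_n`, `R_n ≠ P'_n`.
The segment `[R_n, P'_n]`: contained in `Unb (2 η_n) ⊆ Unb (δ n)` for large `n` (S_ACT2 (6)) and in the box (its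
points converge to `P'`, `0 ≤ Im P' ≤ 2π < 8`).  For `Q` on it `‖fderiv (Θ n) Q - L₀ P'‖ ≤ 1/(n+1) + ‖L₀ Q - L₀ P'‖ ≤ ε` for
large `n` (continuity of `L₀` at `P'`: given `ε` there is `r` with `‖L₀ Q - L₀ P'‖ ≤ ε/2` for `‖Q-P'‖ < r`).
Mean value inequality on the convex set `segment ℝ R_n P'_n` (`Convex.norm_image_sub_le_of_norm_hasFDerivWithin_le'`):
`‖L₀ P' (R_n - P'_n)‖ ≤ ε ‖R_n - P'_n‖`.  But `L₀ P'` is injective on a finite dimensional space, so `‖L₀ P' v‖ ≥ c‖v‖`, `c > 0`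
(`ContinuousLinearMap` antilipschitz, `LinearMap.exists_antilipschitzWith`).  `ε = c/2`: contradiction.
(C) Take `n` large, `η = η_n`. -/
def S_CPT : Prop := ∀ (Θ₀ : V4 → V4) (L₀ : V4 → V4 →L[ℂ] V4) (Θ : ℕ → V4 → V4) (δ : ℕ → ℝ),
  Continuous Θ₀ → Continuous L₀ → (∀ n, 0 < δ n) →
  (∀ n P, P ∈ Unb (δ n) → DifferentiableAt ℂ (Θ n) P) →
  (∀ n P, Θ n (gE P) = Θ n P ∧ ∀ k, Θ n (tE k P) = Θ n P) →
  (∀ n P, P ∈ Unb (δ n) → Box P →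
    ‖Θ n P - Θ₀ P‖ ≤ 1 / (n + 1) ∧ ‖fderiv ℂ (Θ n) P - L₀ P‖ ≤ 1 / (n + 1)) →
  (∀ P P', Core P → Core P' → 0 ≤ (P 3).im → (P 3).im ≤ 2 * Real.pi → 0 ≤ (P' 3).im →
    (P' 3).im ≤ 2 * Real.pi → Θ₀ P = Θ₀ P' → GamRel P P') →
  (∀ P, Core P → 0 ≤ (P 3).im → (P 3).im ≤ 2 * Real.pi → ∀ v, L₀ P v = 0 → v = 0) →
    ∃ (n : ℕ) (η : ℝ), 0 < η ∧ IsEmb η (Θ n)

end Pool.Agent.Helper10.AB
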