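import Pool.Agent.Helper15.AB.GoalsE
import Pool.Agent.Helper10.AB.GoalsEMB

/-!
# Project AB (MP_1ef41b_an), modules FM + EXT, part 1: definitions, torus, general analysis

A packet proves ONE of the `def S_... : Prop` (the docstring is the complete proof).  Goals named in a docstring may be
assumed as hypotheses (`theorem xxx (h : S_YYY) : S_XXX`).  `S_XI`, `S_ATL`, `XiI` are in Pool/Agent/Helper15/AB/GoalsE.lean.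
-/

open MeasureTheory Set Filter Topology
open scoped ContDiff

noncomputable section

namespace Pool.Agent.Helper10.AB

open Pool.Agent.Helper24.AB
open Pool.Agent.Helper15.AB (S_XI S_ATL XiI)

/-! ## Definitions -/

/-- The cube `[0,2π)³`. -/
def T3 : Set (Fin 3 → ℝ) := Set.pi Set.univ fun _ => Set.Ico 0 (2 * Real.pi)

/-- `J·X` -/
def Jd (J : Fin 3 → ℤ) (X : Fin 3 → ℝ) : ℝ := J 0 * X 0 + J 1 * X 1 + J 2 * X 2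

/-- `θ + 2πk` -/
def tr2 (θ : Fin 3 → ℝ) (k : Fin 3 → ℤ) : Fin 3 → ℝ := fun i => θ i + 2 * Real.pi * k i

/-- `Qθ` -/
def Q3 (θ : Fin 3 → ℝ) : Fin 3 → ℝ := ![2 * θ 0 + θ 1, θ 0 + θ 1, θ 2]

/-- continuous `2π`-periodic functions on `ℝ³` -/
def CPer (φ : (Fin 3 → ℝ) → ℂ) : Prop := Continuous φ ∧ ∀ θ k, φ (tr2 θ k) = φ θ

/-- The Fourier coefficient `(2π)^{-3} ∫_{[0,2π)³} φ(θ) e^{-iJ·θ} dθ`. -/
def tm (J : Fin 3 → ℤ) (φ : (Fin 3 → ℝ) → ℂ) : ℂ :=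
  (((2 * Real.pi) ^ 3)⁻¹ : ℝ) * ∫ θ in T3, φ θ * Complex.exp (-(Complex.I * (Jd J θ : ℝ)))

/-- `1 + |J₀| + |J₁| + |J₂|` -/
def nJ (J : Fin 3 → ℤ) : ℝ := 1 + |(J 0 : ℝ)| + |(J 1 : ℝ)| + |(J 2 : ℝ)|

/-- The fibre of the ball: `{ζ' : |ζ'|² < a² - x²}`. -/
def Bs (a x : ℝ) : Set (Fin 3 → ℝ) := {ζ | ζ 0 ^ 2 + ζ 1 ^ 2 + ζ 2 ^ 2 < a ^ 2 - x ^ 2}

/-- The Jacobian `4√5 A² √Ã(σ)` of `Ξ`. -/
def kJ (a A : ℝ) (s : ℝ → ℝ) (x : ℝ) : ℝ := 4 * Real.sqrt 5 * A ^ 2 * Real.sqrt (Atl a A s x)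

/-- The points `y = (w, ζ')`. -/
abbrev YY : Type := ℂ × (Fin 3 → ℝ)

/-- `{(w,ζ') : w ∈ S, ζ' ∈ Bs}` -/
def YS (a : ℝ) (S : Set ℂ) : Set YY := {y | y.1 ∈ S ∧ y.2 ∈ Bs a y.1.re}

/-- The measure `K(σ) dζ' dA(w)` on `YS a S`. -/
def muY (a A : ℝ) (s : ℝ → ℝ) (S : Set ℂ) : Measure YY :=
  (volume.restrict (YS a S)).withDensity fun y => ENNReal.ofReal (kJ a A s y.1.re)

/-- The real parts of the first three coordinates of `Ξ`, as a function of `y = (w, ζ')`. -/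
def XX (a A : ℝ) (s : ℝ → ℝ) (p : ℂ → ℝ) (y : YY) : Fin 3 → ℝ :=
  ![ph * (Real.exp (kap * y.1.im) * (A + Real.sqrt (Atl a A s y.1.re) * y.2 0) - p y.1) +
      ph' * (Real.exp (-(kap * y.1.im)) * (2 * A * y.2 1)),
    (Real.exp (kap * y.1.im) * (A + Real.sqrt (Atl a A s y.1.re) * y.2 0) - p y.1) +
      Real.exp (-(kap * y.1.im)) * (2 * A * y.2 1),
    2 * A * y.2 2]

/-- The point of the cover with the parameters `y = (w, ζ')`, `θ`. -/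
def Pt (a A : ℝ) (s : ℝ → ℝ) (p : ℂ → ℝ) (y : YY) (θ : Fin 3 → ℝ) : V4 :=
  Xi a A s p (![y.2 0, y.2 1, y.2 2, y.1.re], ![θ 0, θ 1, θ 2, y.1.im])

/-- The `J`-th torus mode of a function on `Ω̃`. -/
def md (a A : ℝ) (s : ℝ → ℝ) (p : ℂ → ℝ) (G : V4 → ℂ) (J : Fin 3 → ℤ) (y : YY) : ℂ :=
  tm J fun θ => G (Pt a A s p y θ)

/-- `F̃_J(w) = e^{Φ_J(w)} ∫_{G_w} f_J e^{J·X} dX`. -/
def FJ (a A : ℝ) (s : ℝ → ℝ) (p : ℂ → ℝ) (f : V4 → ℂ) (J : Fin 3 → ℤ) (w : ℂ) : ℂ :=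
  ∫ ζ in Bs a w.re, ((kJ a A s w.re *
    Real.exp (PhiJ a A s p J w + Jd J (XX a A s p (w, ζ))) : ℝ) : ℂ) * md a A s p f J (w, ζ)

/-- The closed cylinder `{|ζ| ≤ a} × ℝ⁴`. -/
def Cyl (a : ℝ) : Set ((Fin 4 → ℝ) × (Fin 4 → ℝ)) := {q | (∑ i, q.1 i ^ 2) ≤ a ^ 2}

/-- The `θ`-slice of a function on the cylinder. -/
def sl (G : (Fin 4 → ℝ) × (Fin 4 → ℝ) → ℂ) (ζ : Fin 4 → ℝ) (t : ℝ) (θ : Fin 3 → ℝ) : ℂ :=
  G (ζ, ![θ 0, θ 1, θ 2, t])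

/-- Smooth functions on the closed cylinder with the invariance under `Γ`. -/
structure Nice (a : ℝ) (G : (Fin 4 → ℝ) × (Fin 4 → ℝ) → ℂ) : Prop where
  smooth : ContDiffOn ℝ ∞ G (Cyl a)
  per : ∀ ζ : Fin 4 → ℝ, (∑ i, ζ i ^ 2) ≤ a ^ 2 → ∀ t θ k, sl G ζ t (tr2 θ k) = sl G ζ t θ
  eqv : ∀ ζ : Fin 4 → ℝ, (∑ i, ζ i ^ 2) ≤ a ^ 2 → ∀ t θ,
    sl G ζ (t + 2 * Real.pi) (Q3 θ) = sl G ζ t θ

/-- `∂_t` on the closed cylinder. -/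
def Dt (a : ℝ) (G : (Fin 4 → ℝ) × (Fin 4 → ℝ) → ℂ) (q : (Fin 4 → ℝ) × (Fin 4 → ℝ)) : ℂ :=
  fderivWithin ℝ G (Cyl a) q (0, Pi.single 3 1)

/-! ## Torus -/

/-- PACKET PARS (1.5 h): Parseval on the torus.

PROOF.  `T3` with Lebesgue measure, divided by `(2π)³`, is carried by `θ ↦ (θ_i/(2π))` to Haar measure of
`UnitAddTorus (Fin 3)` (`AddCircle.measurePreserving_mk`, `volume_pi`, `MeasurePreserving.pi` or `measurePreserving_pi`; scaling of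
`ℝ³`); a `CPer` function factors through a continuous function on the torus and `tm J` is `UnitAddTorus.mFourierCoeff`
(Mathlib.Analysis.Fourier.AddCircleMulti: `hasSum_prod_mFourierCoeff`, `mFourierBasis`).  The second statement is the case
`ψ = φ` (real parts). -/
def S_PARS : Prop :=
  (∀ φ ψ : (Fin 3 → ℝ) → ℂ, CPer φ → CPer ψ →
    HasSum (fun J : Fin 3 → ℤ => tm J φ * (starRingEnd ℂ) (tm J ψ))
      ((((2 * Real.pi) ^ 3)⁻¹ : ℝ) * ∫ θ in T3, φ θ * (starRingEnd ℂ) (ψ θ))) ∧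
  (∀ φ : (Fin 3 → ℝ) → ℂ, CPer φ → HasSum (fun J : Fin 3 → ℤ => ‖tm J φ‖ ^ 2)
      (((2 * Real.pi) ^ 3)⁻¹ * ∫ θ in T3, ‖φ θ‖ ^ 2))

/-- PACKET TQ (1.2 h): the unimodular substitution `θ ↦ Qθ` in the torus integral.

PROOF.  `J·Qθ = (Jn J)·θ`.  So `tm J ψ = (2π)^{-3}∫_{T3} ψ(θ)e^{-iJθ}`, and with `χ(θ) = ψ(θ)e^{-iJ·θ}` (`CPer`) one needs
`∫_{T3} χ = ∫_{T3} χ(Qθ)dθ`.  The map induced by `Q` on the compact group `Fin 3 → AddCircle (2π)` is a continuous surjective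
homomorphism, so it preserves Haar measure (`AddMonoidHom.measurePreserving`); or: `Q` is the composition of the two shears
`(θ₀,θ₁) ↦ (θ₀, θ₀+θ₁)` and `(θ₀,θ₁) ↦ (θ₀+θ₁, θ₁)`, and for a shear use Fubini and
`Function.Periodic.intervalIntegral_add_eq`. -/
def S_TQ : Prop := ∀ φ ψ : (Fin 3 → ℝ) → ℂ, CPer φ → CPer ψ → (∀ θ, ψ (Q3 θ) = φ θ) →
  ∀ J, tm J ψ = tm (Jn J) φ

/-- PACKET TIB (1 h): integration by parts in the torus integral.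

PROOF.  Fubini (`T3` is a product; the coordinate `j` inside), and for fixed other coordinates
`∫_0^{2π} φ'(x) e^{-imx}dx = [φ e^{-imx}] + im∫φ e^{-imx}` (`intervalIntegral.integral_mul_deriv_eq_deriv_mul`), the boundary term
vanishes by periodicity.  Hence `tm J φ' = i (J j) tm J φ`. -/
def S_TIB : Prop := ∀ (j : Fin 3) (φ φ' : (Fin 3 → ℝ) → ℂ), CPer φ → CPer φ' →
  (∀ θ, HasDerivAt (fun x : ℝ => φ (Function.update θ j x)) (φ' θ) (θ j)) →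
  ∀ J, tm J φ' = Complex.I * (J j : ℂ) * tm J φ

/-- PACKET NICE (1.5 h): `∂_t` preserves the class `Nice`, and `tm` commutes with `∂_t`.

PROOF.  `Cyl a` is closed, convex, with nonempty interior (`a > 0`), so `UniqueDiffOn ℝ (Cyl a)`
(`uniqueDiffOn_convex`); `fderivWithin ℝ G (Cyl a)` is again `ContDiffOn ℝ ∞` (`ContDiffOn.fderivWithin`), so `Dt a G` is.
For `q ∈ Cyl a` the whole line `(q.1, q.2 + x e₃)` is in `Cyl a`, so `x ↦ G (q.1, q.2 + x e₃)` has the derivative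
`Dt a G q` at `0` (`HasFDerivWithinAt.comp_hasDerivAt`-type lemma).  Hence `sl G ζ · θ` has the derivative `sl (Dt a G) ζ t θ`,
and differentiating the identities `per`, `eqv` in `t` gives them for `Dt a G` (uniqueness of the derivative).
(2) Differentiation under the integral over `T3` (`hasDerivAt_integral_of_dominated_loc_of_deriv_le`): `sl (Dt a G) ζ t θ` is
continuous, so bounded for `θ ∈ [0,2π]³`, `|t - t₀| ≤ 1`.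
(3) Joint continuity of `tm J (sl G ζ t)` in `(ζ,t)`: dominated convergence (`continuousOn` version: `G` is continuous on `Cyl a`,
bounded on compact sets).  (4) `sl G ζ t` is continuous in `θ`. -/
def S_NICE : Prop := ∀ (a : ℝ) (G : (Fin 4 → ℝ) × (Fin 4 → ℝ) → ℂ), 0 < a → Nice a G →
  Nice a (Dt a G) ∧
  (∀ ζ : Fin 4 → ℝ, (∑ i, ζ i ^ 2) ≤ a ^ 2 → ∀ (J : Fin 3 → ℤ) (t : ℝ),
    HasDerivAt (fun t => tm J (sl G ζ t)) (tm J (sl (Dt a G) ζ t)) t) ∧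
  (∀ J : Fin 3 → ℤ, ContinuousOn (fun q : (Fin 4 → ℝ) × ℝ => tm J (sl G q.1 q.2))
    {q | (∑ i, q.1 i ^ 2) ≤ a ^ 2}) ∧
  (∀ ζ : Fin 4 → ℝ, (∑ i, ζ i ^ 2) ≤ a ^ 2 → ∀ t, CPer (sl G ζ t))

/-- PACKET WW (1.5 h): the weights.  `α = mφ + n`, `α' = mφ' + n`, `αα' = n² + mn - m²` is an integer, `≠ 0` if `(m,n) ≠ 0`
(`m² = n² + mn` is impossible: `√5` irrational; or `4(n²+mn-m²) = (2n+m)² - 5m²`).

PROOF.  (1) `W ≥ 2`, continuous, `|u(t+s)| ≤ e^{κ|s|}|u(t)|`, `0 ≤ κ ≤ 1/6` (Helper11.AB: kap_le, kap_nonneg).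
(2) `|u(t)||v(t)| = |αα'| ≥ 1`; with `t_J` such that `|u(t_J)| = |v(t_J)| ≥ 1` one has
`W(t) ≥ |u(t)| + |v(t)| ≥ e^{κ|t-t_J|}`, so `W(t)^{-2} ≤ e^{-2κ|t-t_J|}`, integral `≤ 1/κ`.
(3) `alp (Jn J) = lam alp J`, `alp' (Jn J) = lam⁻¹ alp' J` (`lam = ph + 1`, `lam ph = 2ph+1`), `exp (2π kap) = lam`.
(4) `|α| + |α'| ≥ c(|m|+|n|)`: `m = (α-α')/√5`, `n = (φα' - φ'α)/√5`; `e^{κ t}` is between `e^{-κT}` and `e^{κT}`.
(5) from `αα' ≠ 0`.   (6) `Σ_J nJ^{-4}`: `nJ⁴ ≥ Π (1+|J_i|)^{4/3}`, or count: at most `(2k+1)³` indices with `max |J_i| = k`.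
(7) periodicity: `Function.iterate`; the inverse of `Jn` is `(m,n,l) ↦ (m-n, 2n-m, l)`. -/
def S_WW : Prop :=
  IsWt (fun J : JJ => WJ J.1) ∧
  (∃ C : ℝ, ∀ J : JJ, Integrable (fun t => (WJ J.1 t ^ 2)⁻¹) ∧ ∫ t, (WJ J.1 t ^ 2)⁻¹ ≤ C) ∧
  (∀ J t, WJ J (t + 2 * Real.pi) = WJ (Jn J) t) ∧
  (∀ T : ℝ, ∃ c : ℝ, 0 < c ∧ ∀ J t, |t| ≤ T → c * nJ J ≤ WJ J t ∧ WJ J t ≤ c⁻¹ * nJ J) ∧
  (∀ J : Fin 3 → ℤ, (J 0 ≠ 0 ∨ J 1 ≠ 0) → alp J ≠ 0 ∧ alp' J ≠ 0 ∧ 1 ≤ |alp J * alp' J|) ∧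
  Summable (fun J : Fin 3 → ℤ => (nJ J ^ 4)⁻¹) ∧
  (∀ J, alp (Jn J) = lam * alp J ∧ alp' (Jn J) = lam⁻¹ * alp' J) ∧ Function.Bijective Jn

/-- PACKET DEC (1.5 h): rapid decay of the torus modes of a nice function, uniformly in all `t` (uses S_TQ, S_TIB, S_NICE,
S_WW).

PROOF.  (1) Equivariance: `tm J (sl G ζ (t+2π)) = tm (Jn J) (sl G ζ t)` (S_TQ with `φ = sl G ζ t`, `ψ = sl G ζ (t+2π)`).
(2) Let `D_j G q = fderivWithin ℝ G (Cyl a) q (0, e_j)`, `j = 0,1,2`: smooth on `Cyl a`, periodic in `θ` as in S_NICE.  By S_TIB,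
`(i J_j)^N tm J (sl G ζ t) = tm J (sl (D_j^N G) ζ t)`, which is bounded for `|ζ| ≤ a`, `0 ≤ t ≤ 2π` by
`sup |D_j^N G|` on a compact set.  With the largest `|J_j|`: `|tm J (sl G ζ t)| nJ(J)^N ≤ C`, `0 ≤ t ≤ 2π`, so
`|tm J (sl G ζ t)| W_J(t)^N ≤ C'` for `0 ≤ t ≤ 2π` by S_WW (4).
(3) Any `t` is `t₀ + 2πk`, `0 ≤ t₀ < 2π`, `k ∈ ℤ`; with (1) and `W_J(t+2π) = W_{Jn J}(t)` (induction on `|k|`; for negative `k`
use that `Jn` is bijective: `tm (Jn J) (sl G ζ (t-2π)) = tm J (sl G ζ t)`) both sides are those of `(J', t₀)`. -/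
def S_DEC : Prop := ∀ (a : ℝ) (G : (Fin 4 → ℝ) × (Fin 4 → ℝ) → ℂ), 0 < a → Nice a G →
  (∀ ζ : Fin 4 → ℝ, (∑ i, ζ i ^ 2) ≤ a ^ 2 → ∀ J t,
    tm J (sl G ζ (t + 2 * Real.pi)) = tm (Jn J) (sl G ζ t)) ∧
  ∀ N : ℕ, ∃ C : ℝ, ∀ J (ζ : Fin 4 → ℝ) t, (∑ i, ζ i ^ 2) ≤ a ^ 2 →
    ‖tm J (sl G ζ t)‖ * WJ J t ^ N ≤ C

/-! ## General analysis -/

/-- PACKET EXPD (0.8 h): derivatives of `exp ∘ ψ`.

PROOF.  Strong induction on `k`.  `E = exp ∘ ψ` satisfies `E' = ψ' E`, so `iteratedDeriv (k+1) E = iteratedDeriv k (ψ' E)` and by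
`norm_iteratedFDeriv_mul_le` (with `norm_iteratedFDeriv_eq_norm_iteratedDeriv`)
`|E^{(k+1)}(t)| ≤ ∑ choose k i |ψ^{(i+1)}(t)| |E^{(k-i)}(t)| ≤ ∑ choose k i B C_{k-i}B^{k-i} E(t) ≤ C B^{k+1} E(t)`. -/
def S_EXPD : Prop := ∀ k : ℕ, ∃ C : ℝ, ∀ (ψ : ℝ → ℝ) (t B : ℝ), ContDiff ℝ ∞ ψ → 1 ≤ B →
  (∀ j : ℕ, 1 ≤ j → j ≤ k → |iteratedDeriv j ψ t| ≤ B) →
    |iteratedDeriv k (fun t => Real.exp (ψ t)) t| ≤ C * B ^ k * Real.exp (ψ t)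

/-- PACKET INTD (1 h): smooth dependence of integrals on a real parameter.

PROOF.  Measurability of `y ↦ iteratedDeriv k (fun t => φ t y) t` for all `k, t`: induction, the derivative is the pointwise
limit of `n(φ (t+1/n) y - φ t y)` (`aestronglyMeasurable_of_tendsto_ae`).  Induction on `k`:
`hasDerivAt_integral_of_dominated_loc_of_deriv_le` with the constant bound `M` (finite measure) gives
`HasDerivAt (fun t => ∫ y, iteratedDeriv k (φ · y) t ∂μ) (∫ y, iteratedDeriv (k+1) (φ · y) t ∂μ) t`; then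
`contDiff_of_differentiable_iteratedDeriv`. -/
def S_INTD : Prop := ∀ (Y : Type) [MeasurableSpace Y] (μ : Measure Y) (φ : ℝ → Y → ℂ),
  IsFiniteMeasure μ → (∀ y, ContDiff ℝ ∞ (fun t => φ t y)) →
  (∀ t, AEStronglyMeasurable (φ t) μ) →
  (∀ (k : ℕ) (t₀ : ℝ), ∃ M : ℝ, ∀ t, |t - t₀| ≤ 1 → ∀ y, ‖iteratedDeriv k (fun t => φ t y) t‖ ≤ M) →
    ContDiff ℝ ∞ (fun t => ∫ y, φ t y ∂μ) ∧ ∀ (k : ℕ) (t : ℝ),
      iteratedDeriv k (fun t => ∫ y, φ t y ∂μ) t = ∫ y, iteratedDeriv k (fun t => φ t y) t ∂μ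

/-- PACKET ORB (1 h): the sum over the orbits of `Jn` (uses S_WW).

PROOF.  `φ(J) = 1` if `(J₀,J₁) ≠ 0` and `1 ≤ |α/α'| < lam²`, else `0`.  `|α/α'|` is multiplied by `lam²` under `Jn`, so for
`J ∈ JJ` exactly one `k ∈ ℤ` has `φ(Jn^k J) = 1`: `∑_k φ(Jn^k J) = 1`.  Let `c'(J) = c(J)` for `J ∈ JJ` and `0` else.
`∑_J c'(J) = ∑_J ∑_k φ(Jn^k J)c'(J) = ∑_k ∑_J φ(Jn^k J)c'(J) = ∑_k ∑_J φ(J)c'(Jn^{-k}J) = ∑_J φ(J) ∑_k c'(Jn^{-k}J) = 0`;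
absolute convergence over `ℤ³ × ℤ`: `∑_J ∑_k φ(Jn^k J)|c'(J)| = ∑_J|c'(J)| < ∞` (`summable_prod_of_nonneg`,
`Summable.tsum_comm`), bijections `Equiv.tsum_eq`.  Here `JnE ^ k`, `k : ℤ`, for the permutation `JnE` with `JnE J = Jn J`. -/
def S_ORB : Prop := ∀ (JnE : Equiv.Perm (Fin 3 → ℤ)), (∀ J, JnE J = Jn J) → ∀ c : (Fin 3 → ℤ) → ℂ,
  Summable (fun J => ‖c J‖) → (∀ J, J 0 = 0 → J 1 = 0 → c J = 0) →
  (∀ J, (J 0 ≠ 0 ∨ J 1 ≠ 0) → ∑' k : ℤ, c ((JnE ^ k) J) = 0) → ∑' J, c J = 0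

/-- PACKET UNQ (0.8 h): uniqueness of the projection.

PROOF.  `d = g₁ - g₂` is holomorphic and `e^{-Φ}d ∈ L²`.  Subtract the two orthogonality relations for `h = d` (all products are
integrable: products of two `L²` functions): `∫ |e^{-Φ}d|² = 0`, so `d = 0` almost everywhere on the strip, and by continuity
everywhere (`Continuous.ae_eq_iff_eq`-type argument on the open set `strip a`). -/
def S_UNQ : Prop := ∀ (a : ℝ) (Φ : ℂ → ℝ) (F g₁ g₂ : ℂ → ℂ), 0 < a → ContinuousOn Φ (strip a) →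
  MemLp F 2 (muS a) → DifferentiableOn ℂ g₁ (strip a) → DifferentiableOn ℂ g₂ (strip a) →
  MemLp (fun w => (Real.exp (-Φ w) : ℂ) * g₁ w) 2 (muS a) →
  MemLp (fun w => (Real.exp (-Φ w) : ℂ) * g₂ w) 2 (muS a) →
  (∀ h, DifferentiableOn ℂ h (strip a) → MemLp (fun w => (Real.exp (-Φ w) : ℂ) * h w) 2 (muS a) →
    ∫ w in strip a, (F w - (Real.exp (-Φ w) : ℂ) * g₁ w) *
      (starRingEnd ℂ) ((Real.exp (-Φ w) : ℂ) * h w) = 0) →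
  (∀ h, DifferentiableOn ℂ h (strip a) → MemLp (fun w => (Real.exp (-Φ w) : ℂ) * h w) 2 (muS a) →
    ∫ w in strip a, (F w - (Real.exp (-Φ w) : ℂ) * g₂ w) *
      (starRingEnd ℂ) ((Real.exp (-Φ w) : ℂ) * h w) = 0) →
  ∀ w ∈ strip a, g₁ w = g₂ w

/-- PACKET GDK (1.5 h): from `∂_t^k (e^{-Φ}g)` to `e^{-Φ} g^{(k)}` (uses `S_URAP` of Pool/Agent/Helper24/AB/AN/Goals.lean).

PROOF.  `dT h = i h'` for holomorphic `h` on the open strip.  Put `G_k = e^{-Φ} g^{(k)}`; `dT G_k = -Φ_t G_k + i G_{k+1}`, i.e.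
`G_{k+1} = -i (dT G_k + Φ_t G_k)` on the strip (`Φ_t = dT Φ`).  Claim: for all `k`, all `m`: `dT^[m] G_k ∈ URap`.  Induction on `k`:
`dT^[m] G_{k+1} = -i(dT^[m+1] G_k + dT^[m](Φ_t G_k))` and by the Leibniz rule `dT^[m](Φ_t G_k) = ∑ choose m i dT^[i+1]Φ ·
dT^[m-i]G_k` on the strip (all functions smooth on the open strip), each term is `UPol × URap`.  (All identities hold on the
open strip only, `muS a` is the restricted measure; `URap` depends only on the values on the strip.) -/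
def S_GDK : Prop := ∀ (a : ℝ) (ι : Type) (Φ : ι → ℂ → ℝ) (W : ι → ℝ → ℝ) (g : ι → ℂ → ℂ), 0 < a →
  IsWt W → (∀ j, ContDiffOn ℝ ∞ (Φ j) (strip a)) → (∀ j, DifferentiableOn ℂ (g j) (strip a)) →
  (∀ k : ℕ, 1 ≤ k → ∃ (C : ℝ) (N : ℕ), ∀ j, ∀ w ∈ strip a, |dT^[k] (Φ j) w| ≤ C * W j w.im ^ N) →
  (∀ k : ℕ, URap a W (fun j => dT^[k] (fun w => (Real.exp (-(Φ j w)) : ℂ) * g j w))) →
  ∀ k : ℕ, URap a W (fun j w => (Real.exp (-(Φ j w)) : ℂ) * deriv^[k] (g j) w)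

end Pool.Agent.Helper10.AB
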