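import Pool.Agent.Helper10.AB.GoalsF1

/-!
# Project AB (MP_1ef41b_an), modules FM + EXT, part 2: geometry, extension to the closure, pointwise bounds

A packet proves ONE of the `def S_... : Prop` (the docstring is the complete proof).  Goals named in a docstring may be
assumed as hypotheses.
-/

open MeasureTheory Set Filter Topology
open scoped ContDiff

noncomputable section

namespace Pool.Agent.Helper10.AB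

open Pool.Agent.Helper24.AB
open Pool.Agent.Helper15.AB (S_XI S_ATL XiI)

/-- The data of the construction. -/
structure Dat (a A δ₀ ρ₀ : ℝ) (s : ℝ → ℝ) (p : ℂ → ℝ) (B : BlockData) : Prop where
  prof : IsProfile a A s
  pot : IsPotential a δ₀ ρ₀ p B
  small : δ₀ ≤ kap ^ 2 * A / 4

/-- The strip piece `|σ| < a, |t| < T`. -/
def SB (a T : ℝ) : Set ℂ := {w | |w.re| < a ∧ |w.im| < T}

/-! ## Coordinates -/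

/-- PACKET EQV (1.2 h): formulas for the coordinates `Pt`, `XX` (uses S_XI).

PROOF.  Unfold; `Pt y θ = (XX y 0 + iθ₀, XX y 1 + iθ₁, XX y 2 + iθ₂, y.1)` is the definition of `Xi`.
(1) with `t ↦ t+2π`: `x₊ ↦ lam x₊` (`p1`, `exp(2π kap) = lam`), `x₋ ↦ lam⁻¹x₋`, and `2φ+1 = lam φ`, `φ+1 = lam`,
`2φ'+1 = lam⁻¹φ'`, `φ'+1 = lam⁻¹`.  (2) direct.  (3) from (1) or directly.  (4) `Complex.exp_add`.
(5) `Xi q ∈ Omt ↔ ∑ q.1 i ^ 2 < a ^ 2`, `Fin.sum_univ_four`; `y.2 ∈ Bs a σ` forces `σ² < a²`.  (6) `y = (P 3, ζ')`, `ζ', θ` from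
`XiI P`.  (7) `J·X = αx₊ + α'x₋ + lX₂`: `J₀φ + J₁ = α`, `J₀φ' + J₁ = α'`. -/
def S_EQV : Prop := ∀ (a A δ₀ ρ₀ : ℝ) (s : ℝ → ℝ) (p : ℂ → ℝ) (B : BlockData), Dat a A δ₀ ρ₀ s p B →
  (∀ (y : YY) θ, gE (Pt a A s p y θ) = Pt a A s p (y.1 + 2 * Real.pi * Complex.I, y.2) (Q3 θ)) ∧
  (∀ (y : YY) θ k, tE k (Pt a A s p y θ) = Pt a A s p y (tr2 θ k)) ∧
  (∀ J (y : YY), Jd J (XX a A s p (y.1 + 2 * Real.pi * Complex.I, y.2)) =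
    Jd (Jn J) (XX a A s p y)) ∧
  (∀ J (y : YY) θ, mon J (Pt a A s p y θ) =
    (Real.exp (Jd J (XX a A s p y)) : ℂ) * Complex.exp (Complex.I * (Jd J θ : ℝ))) ∧
  (∀ (y : YY) θ, Pt a A s p y θ ∈ Omt a A s p ↔ y ∈ YS a (strip a)) ∧
  (∀ P ∈ Omt a A s p, ∃ (y : YY) (θ : Fin 3 → ℝ), y ∈ YS a (strip a) ∧ y.1 = P 3 ∧
    Pt a A s p y θ = P) ∧
  (∀ (J : Fin 3 → ℤ) (y : YY), Jd J (XX a A s p y) =
    uf (alp J) y.1.im * (A + Real.sqrt (Atl a A s y.1.re) * y.2 0) +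
      vf (alp' J) y.1.im * (2 * A * y.2 1) + J 2 * (2 * A * y.2 2) - alp J * p y.1) ∧
  (∀ (y : YY) θ, Pt a A s p y θ = ![⟨XX a A s p y 0, θ 0⟩, ⟨XX a A s p y 1, θ 1⟩,
    ⟨XX a A s p y 2, θ 2⟩, y.1]) ∧
  (∀ (y : YY) θ, Pt a A s p y θ ∈ Fund a A s p ↔ y ∈ YS a (cell a) ∧ θ ∈ T3)

/-- PACKET MAP (2 h): the change of variables (uses S_XI, S_ATL, S_EQV).

PROOF.  `ℂ⁴ = ℂ³ × ℂ` with its measure is `ℝ³(X) × ℝ³(θ) × ℂ(w)` (`Complex.measurableEquivRealProd`, `volume_pi`,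
`MeasurableEquiv.piFinSuccAbove`-type measure preserving equivalences).  For fixed `w` with `|σ| < a` the map
`ζ' ↦ XX (w, ζ')` is affine with the linear part `ζ' ↦ (φc₁ζ₀ + φ'c₂ζ₁, c₁ζ₀ + c₂ζ₁, 2Aζ₂)`, `c₁ = e^{κt}√Ã`, `c₂ = 2Ae^{-κt}`, of
determinant `(φ-φ')c₁c₂·2A = kJ` (`Matrix.det_fin_three`), and it maps `Bs a σ` onto the fibre `Gw`.
Hence for measurable `F ≥ 0`: `∫⁻_{Fund} F = ∫⁻_{w∈cell} ∫⁻_{X∈Gw w} ∫⁻_{θ∈T3} F = ∫⁻_{w∈cell} ∫⁻_{ζ'∈Bs} kJ ∫⁻_{θ∈T3} F(Pt)`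
(Tonelli), which is the statement.  `p` is continuous on the open strip `|σ| < 3a/2` only, so `Pt` is AEMeasurable with respect to the
restricted measure (continuous on `YS a (strip a) × univ`).
(2) is the fibre statement alone (`integral_image_eq_integral_abs_det_fderiv_smul` for the affine map). -/
def S_MAP : Prop := ∀ (a A δ₀ ρ₀ : ℝ) (s : ℝ → ℝ) (p : ℂ → ℝ) (B : BlockData), Dat a A δ₀ ρ₀ s p B →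
  (AEMeasurable (fun q : YY × (Fin 3 → ℝ) => Pt a A s p q.1 q.2)
      ((muY a A s (cell a)).prod (volume.restrict T3)) ∧
    Measure.map (fun q : YY × (Fin 3 → ℝ) => Pt a A s p q.1 q.2)
      ((muY a A s (cell a)).prod (volume.restrict T3)) = volume.restrict (Fund a A s p)) ∧
  ∀ (F : (Fin 3 → ℝ) → ℝ), ∀ w ∈ strip a,
    ∫ X in Gw a A s p w, F X = ∫ ζ in Bs a w.re, kJ a A s w.re * F (XX a A s p (w, ζ))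

/-- PACKET NRM (0.8 h): `e^{-2Φ_J}` (uses S_MAP, S_PHI3, S_EQV).

PROOF.  S_PHI3 (third statement) with `α = alp J`, `α' = alp' J`, `l = J 2`:
`α(X₀-φ'X₁)/√5 + α'(φX₁-X₀)/√5 = J₀X₀ + J₁X₁`; then S_MAP (2).  Integrability: continuous bounded on the bounded open set
`Bs`.  (2) equivariance: S_PHI3 (second).  (3) `Bs a x` is open and bounded, `kJ` continuous, positive and bounded on
`[-a,a]`.  (4) `kJ · vol(Bs)` bounded. -/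
def S_NRM : Prop := ∀ (a A δ₀ ρ₀ : ℝ) (s : ℝ → ℝ) (p : ℂ → ℝ) (B : BlockData), Dat a A δ₀ ρ₀ s p B →
  (∀ J, ∀ w ∈ strip a,
    IntegrableOn (fun ζ => kJ a A s w.re * Real.exp (2 * Jd J (XX a A s p (w, ζ)))) (Bs a w.re) ∧
    ∫ ζ in Bs a w.re, kJ a A s w.re * Real.exp (2 * Jd J (XX a A s p (w, ζ))) =
      Real.exp (-(2 * PhiJ a A s p J w))) ∧
  (∀ J w, PhiJ a A s p J (w + 2 * Real.pi * Complex.I) = PhiJ a A s p (Jn J) w) ∧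
  (Continuous (kJ a A s) ∧ ∀ x, 0 < kJ a A s x) ∧
  ∃ C : ℝ, ∀ x, |x| < a → kJ a A s x * (volume (Bs a x)).toReal ≤ C

/-- PACKET PHC (0.8 h): `Φ_J` is continuous on the strip for every `J` (for `alp J ≠ 0`: S_PHI2; for `J₀ = J₁ = 0`:
`Φ_J(w) = -½log s(σ) - ½log(a²-σ²) - ½log fy(2√(4A²(a²-σ²)l²)) + const`, `fy` is continuous and positive), and in this case
it does not depend on `t`. -/
def S_PHC : Prop := ∀ (a A δ₀ ρ₀ : ℝ) (s : ℝ → ℝ) (p : ℂ → ℝ) (B : BlockData), Dat a A δ₀ ρ₀ s p B →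
  (∀ J, ContinuousOn (PhiJ a A s p J) (strip a)) ∧
  ∀ J : Fin 3 → ℤ, J 0 = 0 → J 1 = 0 → ∀ w : ℂ, PhiJ a A s p J w = PhiJ a A s p J (w.re : ℂ)

/-- PACKET PB (1 h): pull back of a smooth function on the closure (uses S_XI, S_EQV).

PROOF.  `Xi` is smooth on the open set `|ζ₃| < 3a/2` which contains `Cyl a`, and maps `Cyl a` into the closure of `Omt`
(S_XI): composition.  `tE k (Xi (ζ,τ)) = Xi (ζ, τ + 2πk)`, `gE (Xi (ζ,τ)) = Xi (ζ,(Qθ,t+2π))`. -/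
def S_PB : Prop := ∀ (a A δ₀ ρ₀ : ℝ) (s : ℝ → ℝ) (p : ℂ → ℝ) (B : BlockData), Dat a A δ₀ ρ₀ s p B →
  ∀ f : V4 → ℂ, ContDiffOn ℝ ∞ f (closure (Omt a A s p)) → GamInv (closure (Omt a A s p)) f →
    Nice a (fun q => f (Xi a A s p q))

/-! ## Extension to the closure (EXT) -/

/-- PACKET EX1 (1.5 h): radial integration.

PROOF.  Fix `T`.  For `m ≥ 0` let (B_m): for every `i` there is `C` with `‖u i q‖ (a²-|ζ|²)^m ≤ C` for `q ∈ S₀`, `‖q.2‖ ≤ T`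
(`|ζ|² = ∑ ζ_i²`).  The hypothesis is (B_{5/2}).  Claim (B_m) ⇒ (B_{m-1}) for `m > 1`, and (B_{1/2}) ⇒ (B_0).
For `|ζ|² ≤ a²/4` there is nothing to do (the hypothesis gives a bound).  Else with `ρ = |ζ|`, `ω = ζ/ρ`, consider
`φ(r) = u i (rω, τ)`, `a/2 ≤ r ≤ ρ`: `‖φ'(r)‖ ≤ 2‖D i (rω,τ)‖ ≤ C ∑_{j∈F} ‖u j (rω,τ)‖ ≤ C'(a²-r²)^{-m} ≤ C''(a-r)^{-m}` (sup norm
of `ω` is `≤ 1`), `‖φ(a/2)‖ ≤ C`.  By `image_norm_le_of_norm_deriv_right_le_deriv_boundary` with the boundary function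
`B(r) = C + C'' (a-r)^{1-m}/(m-1)` (`m > 1`), resp. `B(r) = C + 2C''(√(a/2) - √(a-r))` (`m = 1/2`), `‖φ(ρ)‖ ≤ B(ρ)`.  From `5/2`:
`3/2`, `1/2`, `0`. -/
def S_EX1 : Prop := ∀ (a : ℝ) (ι : Type) (u : ι → (Fin 4 → ℝ) × (Fin 4 → ℝ) → ℂ)
  (D : ι → (Fin 4 → ℝ) × (Fin 4 → ℝ) → ((Fin 4 → ℝ) × (Fin 4 → ℝ)) →L[ℝ] ℂ), 0 < a →
  (∀ i q, (∑ j, q.1 j ^ 2) < a ^ 2 → HasFDerivAt (u i) (D i q) q) →
  (∀ i, ∃ F : Finset ι, ∀ T : ℝ, ∃ M : ℝ, ∀ q, (∑ j, q.1 j ^ 2) < a ^ 2 → ‖q.2‖ ≤ T →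
    ‖D i q‖ ≤ M * ∑ j ∈ F, ‖u j q‖) →
  (∀ i (T : ℝ), ∃ C : ℝ, ∀ q, (∑ j, q.1 j ^ 2) < a ^ 2 → ‖q.2‖ ≤ T →
    ‖u i q‖ ^ 2 * (a ^ 2 - ∑ j, q.1 j ^ 2) ^ 5 ≤ C) →
  ∀ i (T : ℝ), ∃ C : ℝ, ∀ q, (∑ j, q.1 j ^ 2) < a ^ 2 → ‖q.2‖ ≤ T → ‖u i q‖ ≤ C

/-- PACKET EX2 (1.5 h): extension from the open to the closed cylinder.

PROOF.  `S₀ = {∑ζ²<a²}` is open and convex, its closure is `Cyl a`.
(1) On the convex set `S₀ ∩ {‖q.2‖ < T}` the derivative `∑_j u(nx i j)·ℓ_j` is bounded (the `ℓ j` are continuous on the compact set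
`Cyl a ∩ {‖q.2‖ ≤ T}`), so `u i` is Lipschitz there and has a limit at every point of `Cyl a`.  `û_i := extendFrom S₀ (u i)` is
continuous on `Cyl a` (`continuousOn_extendFrom`), equal to `u i` on `S₀` (`extendFrom_extends`).
(2) For `x ∈ Cyl a`: `HasFDerivWithinAt û_i (∑_j û_{nx i j}(x) • ℓ_j x) (Cyl a) x` by
`hasFDerivWithinAt_closure_of_tendsto_fderiv` (on `S₀` the derivative of `û_i` is `∑_j û_{nx i j} • ℓ_j`, which is continuous on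
`Cyl a`).
(3) Induction on `n : ℕ`: for all `i`, `ContDiffOn ℝ n û_i (Cyl a)`: `contDiffOn_succ_iff_hasFDerivWithinAt` (with the set
`Cyl a` itself as the neighbourhood), the derivative `∑_j û_{nx i j} • ℓ_j` is `ContDiffOn ℝ n`.  `contDiffOn_infty`. -/
def S_EX2 : Prop := ∀ (a : ℝ) (ι : Type) (u : ι → (Fin 4 → ℝ) × (Fin 4 → ℝ) → ℂ)
  (nx : ι → Fin 4 → ι)
  (l : Fin 4 → (Fin 4 → ℝ) × (Fin 4 → ℝ) → ((Fin 4 → ℝ) × (Fin 4 → ℝ)) →L[ℝ] ℂ), 0 < a →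
  (∀ j, ContDiffOn ℝ ∞ (l j) (Cyl a)) →
  (∀ i q, (∑ j, q.1 j ^ 2) < a ^ 2 → HasFDerivAt (u i) (∑ j, u (nx i j) q • l j q) q) →
  (∀ i (T : ℝ), ∃ C : ℝ, ∀ q, (∑ j, q.1 j ^ 2) < a ^ 2 → ‖q.2‖ ≤ T → ‖u i q‖ ≤ C) →
  ∀ i, ∃ v : (Fin 4 → ℝ) × (Fin 4 → ℝ) → ℂ, ContDiffOn ℝ ∞ v (Cyl a) ∧
    ∀ q, (∑ j, q.1 j ^ 2) < a ^ 2 → v q = u i q

/-- PACKET EX3 (1.2 h): extension from `Ω̃` to its closure (uses S_XI, S_EX1, S_EX2).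

PROOF.  Apply S_EX1 and S_EX2 to `U i = u i ∘ Xi`, `ℓ_j q = (proj j).restrictScalars ℝ ∘ (fderiv ℝ Xi q)` (smooth on the open
set `|ζ₃| < 3a/2 ⊇ Cyl a`), `D i q = ∑_j U(nx i j) q • ℓ_j q` (chain rule; `HasFDerivAt.restrictScalars`),
`F = {nx i j}`; `a² - ∑ζ² = |rfun (Xi q)|`, `(Xi q 3).im = q.2 3`, `|q.2 3| ≤ ‖q.2‖`.  Then `v ∘ XiI` is `ContDiffOn` on
`closure Omt` (`XiI` maps it into `Cyl a`, smooth on the open set `|σ| < 3a/2`), equal to `u i` on `Omt`. -/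
def S_EX3 : Prop := ∀ (a A δ₀ ρ₀ : ℝ) (s : ℝ → ℝ) (p : ℂ → ℝ) (B : BlockData), Dat a A δ₀ ρ₀ s p B →
  ∀ (ι : Type) (u : ι → V4 → ℂ) (nx : ι → Fin 4 → ι),
  (∀ i, ∀ P ∈ Omt a A s p, HasFDerivAt (u i) (∑ j : Fin 4, u (nx i j) P •
    (ContinuousLinearMap.proj (R := ℂ) (φ := fun _ : Fin 4 => ℂ) j)) P) →
  (∀ i (T : ℝ), ∃ C : ℝ, ∀ P ∈ Omt a A s p, |(P 3).im| ≤ T →
    ‖u i P‖ ^ 2 * |rfun a A s p P| ^ 5 ≤ C) →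
  ∀ i, ∃ g : V4 → ℂ, ContDiffOn ℝ ∞ g (closure (Omt a A s p)) ∧ ∀ P ∈ Omt a A s p, g P = u i P

/-! ## Pointwise bounds -/

/-- PACKET LIP (1.5 h): a neighbourhood of size `c|r(P)|` of a point `P` of `Ω̃` is in `Ω̃` (uses S_XI).

PROOF.  `P ∈ Omt`, `|Im P₃| ≤ T`: `P = Xi q`, `∑ζ² < a²`, so `|Re P_i| ≤ R₀` and `-a² ≤ r(P) < 0`.  `rfun` does not depend on
`Im P₀, Im P₁, Im P₂`, so we may take them `= 0` for `P` and replace `P'` by `P'` minus these numbers times `i`.  On the compact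
convex set `{|Re P_i| ≤ R₀+1, |Im P_i| ≤ T+1, |Re P₃| ≤ 5a/4}` the function `rfun` is `C¹` (smooth near it: by S_XI
`rfun P = ∑ (XiI P).1² - a²`), hence Lipschitz with a constant `L` (sup norm).  `c = min(1/(2L+2), 1, ..)` with `c a² ≤ a/4` and
`c a² ≤ 1`: `|r(P')-r(P)| ≤ Lc|r(P)| ≤ |r(P)|/2`, so `r(P') < 0`, and `|Re P'₃| < 3a/2`. -/
def S_LIP : Prop := ∀ (a A δ₀ ρ₀ : ℝ) (s : ℝ → ℝ) (p : ℂ → ℝ) (B : BlockData), Dat a A δ₀ ρ₀ s p B →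
  ∀ T : ℝ, 0 < T → ∃ c : ℝ, 0 < c ∧ c ≤ 1 ∧ ∀ P ∈ Omt a A s p, |(P 3).im| ≤ T →
    0 < |rfun a A s p P| ∧ |rfun a A s p P| ≤ 1 ∧
    ∀ P' : V4, (∀ i, ‖P' i - P i‖ ≤ c * |rfun a A s p P|) →
      P' ∈ Omt a A s p ∧ |(P' 3).im| ≤ T + 1

/-- PACKET BOX (1.2 h): mean value inequality.

PROOF.  `‖g w₀‖² πρ² ≤ ∫_{ball w₀ ρ} ‖g‖²`: `g²` is holomorphic; the mean value property on circles
(`Complex.circleIntegral_sub_inv_smul..`, `circleAverage`/`DiffContOnCl`) and polar coordinates (`Complex.integral_comp_polarCoord_symm`),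
for `ρ' < ρ` and then `ρ' → ρ`, or directly.  `e^{2Jd J X₀} (2ρ)³ ≤ ∫_{|X_i-X₀_i| ≤ ρ} e^{2Jd J X}dX`: product of three
one-dimensional integrals (or Fubini), `∫_{x₀-ρ}^{x₀+ρ} e^{cx}dx ≥ 2ρe^{cx₀}` (`e^{c y} ≥ 1 + cy`); or: apply `e^x ≥ 1+x` to
`e^{2J·(X-X₀)}` and symmetry. -/
def S_BOX : Prop :=
  (∀ (g : ℂ → ℂ) (w₀ : ℂ) (ρ : ℝ), 0 < ρ → DifferentiableOn ℂ g (Metric.ball w₀ (2 * ρ)) →
    ‖g w₀‖ ^ 2 * (Real.pi * ρ ^ 2) ≤ ∫ w in Metric.ball w₀ ρ, ‖g w‖ ^ 2) ∧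
  (∀ (J : Fin 3 → ℤ) (X₀ : Fin 3 → ℝ) (ρ : ℝ), 0 < ρ →
    Real.exp (2 * Jd J X₀) * (2 * ρ) ^ 3 ≤
      ∫ X in {X : Fin 3 → ℝ | ∀ i, |X i - X₀ i| ≤ ρ}, Real.exp (2 * Jd J X))

/-- PACKET PTW (1.5 h): pointwise bound by the weighted `L²` norm (uses S_LIP, S_BOX, S_EQV, S_NRM, S_MAP, S_PHC).

PROOF.  `P ∈ Omt`, `w₀ = P 3`, `X₀ = Re` of the other coordinates, `‖mon J P‖ = e^{J·X₀}`, `ρ = c|r(P)|/2`, `c` from S_LIP for `T`.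
For `w ∈ ball w₀ ρ` and `|X_i-X₀_i| ≤ ρ` the point `(X,w)` is in `Omt`, so `X ∈ Gw w` (shift by imaginary parts: `rfun` does not
depend on them), and `|w.im| < T+1`, `|w.re| < a`.  Hence
`‖g w₀‖²e^{2J·X₀}·8πρ⁵ ≤ ∫_{ball w₀ ρ}‖g w‖² ∫_{box}e^{2J·X}dX dA(w) ≤ ∫_{ball w₀ ρ}‖g w‖²e^{-2Φ_J(w)}dA(w) ≤
∫_{SB a (T+1)}(e^{-Φ_J}‖g‖)²` (S_NRM + S_MAP (2), or S_PHI3).  `C = 1/(8π(c/2)⁵)`. -/
def S_PTW : Prop := ∀ (a A δ₀ ρ₀ : ℝ) (s : ℝ → ℝ) (p : ℂ → ℝ) (B : BlockData), Dat a A δ₀ ρ₀ s p B →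
  ∀ T : ℝ, 0 < T → ∃ C : ℝ, 0 < C ∧ ∀ (J : Fin 3 → ℤ) (g : ℂ → ℂ), DifferentiableOn ℂ g (strip a) →
    IntegrableOn (fun w => (Real.exp (-PhiJ a A s p J w) * ‖g w‖) ^ 2) (SB a (T + 1)) →
    ∀ P ∈ Omt a A s p, |(P 3).im| ≤ T → ‖g (P 3) * mon J P‖ ^ 2 * |rfun a A s p P| ^ 5 ≤
      C * ∫ w in SB a (T + 1), (Real.exp (-PhiJ a A s p J w) * ‖g w‖) ^ 2

/-- The bounds of a family `(g_J)`. -/
def GBd (a A : ℝ) (s : ℝ → ℝ) (p : ℂ → ℝ) (K : Set (Fin 3 → ℤ)) (g : (Fin 3 → ℤ) → ℂ → ℂ) : Prop :=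
  (∀ J ∈ K, DifferentiableOn ℂ (g J) (strip a)) ∧
  ∀ (k N : ℕ) (T : ℝ), ∃ C : ℝ, ∀ J ∈ K,
    IntegrableOn (fun w => (Real.exp (-PhiJ a A s p J w) * ‖deriv^[k] (g J) w‖) ^ 2) (SB a T) ∧
    (∫ w in SB a T, (Real.exp (-PhiJ a A s p J w) * ‖deriv^[k] (g J) w‖) ^ 2) * nJ J ^ N ≤ C

/-- `J^β` -/
def Jpw (J : Fin 3 → ℤ) (β : Fin 3 → ℕ) : ℂ :=
  (J 0 : ℂ) ^ β 0 * (J 1 : ℂ) ^ β 1 * (J 2 : ℂ) ^ β 2

/-- `H_{k,β}(P) = ∑_J g_J^{(k)}(w) J^β e^{J·Z}` -/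
def HH (g : (Fin 3 → ℤ) → ℂ → ℂ) (i : ℕ × (Fin 3 → ℕ)) (P : V4) : ℂ :=
  ∑' J : Fin 3 → ℤ, deriv^[i.1] (g J) (P 3) * Jpw J i.2 * mon J P

/-- The index of the `j`-th partial derivative. -/
def nxt (i : ℕ × (Fin 3 → ℕ)) : Fin 4 → ℕ × (Fin 3 → ℕ)
  | 0 => (i.1, i.2 + Pi.single 0 1)
  | 1 => (i.1, i.2 + Pi.single 1 1)
  | 2 => (i.1, i.2 + Pi.single 2 1)
  | 3 => (i.1 + 1, i.2)

/-- PACKET HFD (2 h): the series (uses S_PTW, S_LIP, S_WW).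

PROOF.  `deriv^[k] (g J)` is holomorphic on the open strip.  By S_PTW and GBd (with `T`, `N`): for `P ∈ Omt`, `|Im P₃| ≤ T`
`‖g_J^{(k)}(P₃) mon J P‖² |r(P)|⁵ ≤ C_{k,N,T} nJ(J)^{-N}` for all `J`, so with `|Jpw J β| ≤ nJ^{|β|}` and `N = 2|β| + 8`:
`‖term‖ |r|^{5/2} ≤ C nJ^{-4}`, summable (S_WW (6)): (1) and (3) [`‖HH‖² |r|⁵ ≤ (∑ ‖term‖)²|r|⁵ ≤ C`].
(2) `hasFDerivAt_tsum_of_isPreconnected` on a small ball around `P` in `Omt` (S_LIP) on which `|r| ≥ |r(P)|/2` (continuity) : each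
term has the complex derivative `g^{(k+1)}(P₃)Jpw mon · dw + ∑_j g^{(k)}(P₃) Jpw J_j mon · dZ_j`, of norm `≤ C nJ^{-4}` by the same
bounds; `J_j · Jpw J β = Jpw J (β + e_j)`; the derivative of the sum is a `tsum` of continuous linear maps, split it into the four
sums (all summable). -/
def S_HFD : Prop := ∀ (a A δ₀ ρ₀ : ℝ) (s : ℝ → ℝ) (p : ℂ → ℝ) (B : BlockData), Dat a A δ₀ ρ₀ s p B →
  ∀ g : (Fin 3 → ℤ) → ℂ → ℂ, GBd a A s p Set.univ g →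
  (∀ i : ℕ × (Fin 3 → ℕ), ∀ P ∈ Omt a A s p,
    Summable (fun J : Fin 3 → ℤ => ‖deriv^[i.1] (g J) (P 3) * Jpw J i.2 * mon J P‖)) ∧
  (∀ i, ∀ P ∈ Omt a A s p, HasFDerivAt (HH g i) (∑ j : Fin 4, HH g (nxt i j) P •
    (ContinuousLinearMap.proj (R := ℂ) (φ := fun _ : Fin 4 => ℂ) j)) P) ∧
  (∀ i (T : ℝ), ∃ C : ℝ, ∀ P ∈ Omt a A s p, |(P 3).im| ≤ T →
    ‖HH g i P‖ ^ 2 * |rfun a A s p P| ^ 5 ≤ C)

end Pool.Agent.Helper10.AB
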