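import Pool.Agent.Helper10.AB.GoalsF2

/-!
# Project AB (MP_1ef41b_an), module FM, part 3: interfaces inside FM

`S_FJA` (helper10), `S_GFX` (helper95), `S_MH` (helper15).
-/

open MeasureTheory Set Filter Topology
open scoped ContDiff

noncomputable section

namespace Pool.Agent.Helper10.AB

open Pool.Agent.Helper24.AB
open Pool.Agent.Helper15.AB (S_XI S_ATL XiI)

/-- (Interface) the functions `F̃_J`. -/
def S_FJA : Prop := ∀ (a A δ₀ ρ₀ : ℝ) (s : ℝ → ℝ) (p : ℂ → ℝ) (B : BlockData), Dat a A δ₀ ρ₀ s p B →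
  ∀ f : V4 → ℂ, ContDiffOn ℝ ∞ f (closure (Omt a A s p)) → GamInv (closure (Omt a A s p)) f →
  (∀ J σ, |σ| < a → ContDiff ℝ ∞ (fun t : ℝ => FJ a A s p f J ⟨σ, t⟩)) ∧
  (∀ k N : ℕ, ∃ C : ℝ, ∀ J σ t, |σ| < a →
    ‖iteratedDeriv k (fun t : ℝ => FJ a A s p f J ⟨σ, t⟩) t‖ * WJ J t ^ N ≤ C) ∧
  (∀ J, AEStronglyMeasurable (FJ a A s p f J) (muS a)) ∧
  (∀ J, ∀ w ∈ strip a, FJ a A s p f J (w + 2 * Real.pi * Complex.I) = FJ a A s p f (Jn J) w)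

/-- The fixed frequencies `J = (0,0,l)`. -/
def K0 : Set (Fin 3 → ℤ) := {J | J 0 = 0 ∧ J 1 = 0}

/-- (Interface) the fixed frequencies: `g_J` is `2πi`-periodic; `Φ_J` depends on `σ` only (S_PHC), `W_J = 2 + |l|`.
`S_FJA → S_NRM → S_PHC → S_WW → S_GFX`.

PROOF (sketch).  `ω(σ) = e^{-Φ_J(σ)}`, `ω ∈ L²(-a,a)` (S_NRM with the bound `∫_{Bs}kJ e^{..}`), `F_n(σ) = (2π)^{-1}∫_0^{2π}F̃_J(σ+it)
e^{-int}dt`, `|F_n| ≤ M_k|n|^{-k}`, `M_k ≤ C_{k,N}(2+|l|)^{-N}`; `γ_n = ∫F_nωe^{nσ}dσ/∫ω²e^{2nσ}dσ`, `‖γ_nωe^{nσ}‖_{L²(-a,a)} ≤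
‖F_n‖_{L²} ≤ √(2a) M_k|n|^{-k}`, `g(w) = ∑γ_ne^{nw}`; `e^{2nσ₀} ≤ (2δ)^{-1}∫_{σ₀-δ}^{σ₀+δ}e^{2nσ}dσ` gives the locally uniform
convergence (with all derivatives).  Orthogonality: `h` periodic holomorphic, `ωh ∈ L²(cell)`: its Fourier coefficients in `t` are
`η_ne^{nσ}` (periodic vertical line integral, Cauchy), Parseval in `t` (absolutely convergent for `F̃ - ωg`), and
`∫(F_n - ωγ_ne^{nσ})ω conj(η_n)e^{nσ}dσ = 0`. -/
def S_GFX : Prop := ∀ (a A δ₀ ρ₀ : ℝ) (s : ℝ → ℝ) (p : ℂ → ℝ) (B : BlockData), Dat a A δ₀ ρ₀ s p B →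
  ∀ f : V4 → ℂ, ContDiffOn ℝ ∞ f (closure (Omt a A s p)) → GamInv (closure (Omt a A s p)) f →
  ∃ g : (Fin 3 → ℤ) → ℂ → ℂ, GBd a A s p K0 g ∧
    (∀ J ∈ K0, ∀ w ∈ strip a, g J (w + 2 * Real.pi * Complex.I) = g J w) ∧
    ∀ J ∈ K0, ∀ h, DifferentiableOn ℂ h (strip a) →
      (∀ w ∈ strip a, h (w + 2 * Real.pi * Complex.I) = h w) →
      MemLp (fun w => (Real.exp (-(PhiJ a A s p J w)) : ℂ) * h w) 2 (volume.restrict (cell a)) →
      ∫ w in cell a, (FJ a A s p f J w - (Real.exp (-(PhiJ a A s p J w)) : ℂ) * g J w) *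
        (starRingEnd ℂ) ((Real.exp (-(PhiJ a A s p J w)) : ℂ) * h w) = 0

/-- (Interface) the modes of a holomorphic function: `S_XI → S_EQV → S_TQ → S_MH`.

PROOF (sketch).  For `w ∈ strip a`, `X ∈ Gw`: `m_J(X,w) = e^{-J·X} tm J (θ ↦ h(X+iθ,w)) = (2π)^{-3}∫_{T3} h(X+iθ,w)e^{-J·(X+iθ)}dθ`.
(1) In one variable: `F` holomorphic and `2πi`-periodic on a vertical strip: `∫_0^{2π}F(x+iθ)dθ` does not depend on `x`
(`Complex.integral_boundary_rect_eq_zero_of_differentiableOn`, the horizontal sides cancel).  So `m_J(·,w)` does not change if one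
coordinate of `X` is changed inside a box contained in `Gw`: locally constant on the open set `Gw`, which is convex/connected
(the image of the ball `Bs` under an affine map): constant `=: η_J(w)`.
(2) `η_J` is holomorphic: near `w₀` fix `X₀ ∈ Gw w₀`; for `w` near `w₀` it is `(2π)^{-3}∫_{T3} h(X₀+iθ,w)e^{-J·(X₀+iθ)}dθ`, the
integrand is jointly continuous and holomorphic in `w` (derivative bounded by Cauchy's estimate).
(3) `md h J y = e^{J·XX y}η_J(y.1)`.  (4) equivariance: `h(gE P) = h(P)`, S_EQV, S_TQ. -/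
def S_MH : Prop := ∀ (a A δ₀ ρ₀ : ℝ) (s : ℝ → ℝ) (p : ℂ → ℝ) (B : BlockData), Dat a A δ₀ ρ₀ s p B →
  ∀ h : V4 → ℂ, DifferentiableOn ℂ h (Omt a A s p) → GamInv (Omt a A s p) h →
  ∃ η : (Fin 3 → ℤ) → ℂ → ℂ, (∀ J, DifferentiableOn ℂ (η J) (strip a)) ∧
    (∀ J, ∀ w ∈ strip a, η J (w + 2 * Real.pi * Complex.I) = η (Jn J) w) ∧
    ∀ J, ∀ y ∈ YS a (strip a),
      md a A s p h J y = η J y.1 * (Real.exp (Jd J (XX a A s p y)) : ℂ)

end Pool.Agent.Helper10.AB
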