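import Pool.Agent.Helper10.AB.GoalsF3

/-!
# Project AB (MP_1ef41b_an), module FM, part 4: the functions `F̃_J`, `g_J`, and the inner product

A packet proves ONE of the `def S_... : Prop` (the docstring is the complete proof).  Goals named in a docstring may be
assumed as hypotheses.
-/

open MeasureTheory Set Filter Topology
open scoped ContDiff

noncomputable section

namespace Pool.Agent.Helper10.AB

open Pool.Agent.Helper24.AB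
open Pool.Agent.Helper15.AB (S_XI S_ATL XiI)

/-! ## The functions `F̃_J` -/

/-- PACKET DTI (0.8 h): derivatives along the lines `σ = const`.

PROOF.  `⟨σ,t⟩ = σ + t I`, `dT f w = fderiv ℝ f w I`.  On the open strip `dT f` is smooth, and
`deriv (fun t => f ⟨σ,t⟩) t = dT f ⟨σ,t⟩` (chain rule).  Induction on `k` (for all `f`) with `iteratedDeriv_succ'` and
`Function.iterate_succ_apply`. -/
def S_DTI : Prop := ∀ (E : Type) [NormedAddCommGroup E] [NormedSpace ℝ E] (b : ℝ) (f : ℂ → E),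
  ContDiffOn ℝ ∞ f (strip b) → ∀ σ, |σ| < b → ContDiff ℝ ∞ (fun t : ℝ => f ⟨σ, t⟩) ∧
    ∀ (k : ℕ) (t : ℝ), iteratedDeriv k (fun t : ℝ => f ⟨σ, t⟩) t = dT^[k] f ⟨σ, t⟩

/-- PACKET EDR (1.5 h): the exponent `Φ_J + J·X` along a line has derivatives of polynomial growth (uses S_DTI, S_EQV, S_ATL,
S_PHI2, S_PHI3, S_WW).

PROOF.  (1) For every `k` there is `C` with `|dT^[k] p w| ≤ C e^{κt}` on `strip a`: `dT^[k] p` is continuous on `strip (3a/2)`, hence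
bounded on the compact set `|σ| ≤ a, 0 ≤ t ≤ 2π`, and `dT^[k] p (w+2πi) = lam dT^[k] p w` (`p1`), `e^{2πκ} = lam`.
(2) By S_EQV (7) `J·XX = u(A + √Ã ζ₀) + v·2Aζ₁ + l·2Aζ₂ - αp`; for `ζ ∈ Bs a σ` the numbers `ζ_i` are `≤ a` in absolute value and
`√Ã` is bounded on `[-a,a]`.  `k`-th derivative in `t`, `k ≥ 1`: `κ^k u(A+√Ãζ₀) + (-κ)^k v·2Aζ₁ - α dT^[k]p`, absolute value
`≤ C W` (`|α|e^{κt} = |u|`; S_DTI for `p`).
(3) `Φ_J`: for `(J₀,J₁) ≠ 0`, `alp J ≠ 0`: S_PHI3 (first statement), S_PHI2 (smooth on the strip) and S_DTI.  For `J₀ = J₁ = 0`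
`Φ_J(⟨σ,t⟩)` does not depend on `t` (`uf 0 = vf 0 = 0`), its derivatives vanish. -/
def S_EDR : Prop := ∀ (a A δ₀ ρ₀ : ℝ) (s : ℝ → ℝ) (p : ℂ → ℝ) (B : BlockData), Dat a A δ₀ ρ₀ s p B →
  (∀ (J : Fin 3 → ℤ) (σ : ℝ) (ζ : Fin 3 → ℝ), |σ| < a → ζ ∈ Bs a σ →
    ContDiff ℝ ∞ (fun t : ℝ => PhiJ a A s p J ⟨σ, t⟩ + Jd J (XX a A s p (⟨σ, t⟩, ζ)))) ∧
  ∀ k : ℕ, 1 ≤ k → ∃ (C : ℝ) (N : ℕ), ∀ (J : Fin 3 → ℤ) (σ : ℝ) (ζ : Fin 3 → ℝ) (t : ℝ), |σ| < a →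
    ζ ∈ Bs a σ → |iteratedDeriv k (fun t : ℝ => PhiJ a A s p J ⟨σ, t⟩ +
      Jd J (XX a A s p (⟨σ, t⟩, ζ))) t| ≤ C * WJ J t ^ N

/-- PACKET FJ1 (2 h): `F̃_J` is smooth in `t` with rapidly decreasing derivatives (uses S_PB, S_NICE, S_DEC, S_EDR, S_EXPD,
S_INTD, S_NRM, S_WW).

PROOF.  `G q = f (Xi q)` is `Nice` (S_PB) and `md f J (⟨σ,t⟩,ζ) = tm J (sl G ζ̂ t)`, `ζ̂ = (ζ₀,ζ₁,ζ₂,σ)` (definition).  By S_NICE,
iterated: `t ↦ m(t) := tm J (sl G ζ̂ t)` is smooth, `iteratedDeriv k m t = tm J (sl (Dt^[k] G) ζ̂ t)`, `Dt^[k] G` is `Nice`, so by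
S_DEC `|m^{(k)}(t)| ≤ C_{k,N} W^{-N}` for all `|σ| < a`, `ζ ∈ Bs`.  `E(t) = exp(Φ_J + J·XX)` satisfies by S_EDR, S_EXPD
`|E^{(k)}| ≤ C_k W^{N_k} E`.  Product rule (`norm_iteratedFDeriv_mul_le`): with `φ t ζ = kJ·E·m` for `ζ ∈ Bs` and `0` else
`|∂_t^kφ| ≤ C_{k,N} W^{-N} kJ E`.  For fixed `J, σ` and `|t-t₀| ≤ 1` this is bounded uniformly in `ζ` (`XX` and `Φ_J(⟨σ,t⟩)` are
bounded), and `φ t` is measurable (continuous on the open set `Bs`: S_NICE (3)), so S_INTD applies with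
`μ = volume.restrict (Bs a σ)` (finite).  Finally `|∂_t^k F̃_J| ≤ C_{k,N}W^{-N} ∫_{Bs} kJ E ≤ C W^{-N}(∫kJE²)^{1/2}(kJ vol Bs)^{1/2} ≤
C' W^{-N}`, since `∫_{Bs} kJ E² = e^{2Φ}e^{-2Φ} = 1` (S_NRM; or `E ≤ (1+E²)/2`). -/
def S_FJ1 : Prop := ∀ (a A δ₀ ρ₀ : ℝ) (s : ℝ → ℝ) (p : ℂ → ℝ) (B : BlockData), Dat a A δ₀ ρ₀ s p B →
  ∀ f : V4 → ℂ, ContDiffOn ℝ ∞ f (closure (Omt a A s p)) → GamInv (closure (Omt a A s p)) f →
  (∀ J σ, |σ| < a → ContDiff ℝ ∞ (fun t : ℝ => FJ a A s p f J ⟨σ, t⟩)) ∧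
  (∀ k N : ℕ, ∃ C : ℝ, ∀ J σ t, |σ| < a →
    ‖iteratedDeriv k (fun t : ℝ => FJ a A s p f J ⟨σ, t⟩) t‖ * WJ J t ^ N ≤ C)

/-- PACKET FJM (1.2 h): measurability and equivariance of `F̃_J` (uses S_PB, S_NICE, S_DEC, S_NRM, S_PHC, S_EQV, S_ATL).

PROOF.  (1) The integrand is jointly continuous on the open set `YS a (strip a)` (S_NICE (3) for `md f J`, S_PHC, `XX`, `kJ`
continuous), so its extension by `0` is strongly measurable on `ℂ × ℝ³`, and `StronglyMeasurable.integral_prod_right'`.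
(2) `w ↦ w+2πi` does not change `Bs`, `kJ`; `Φ_J(w+2πi) = Φ_{Jn J}(w)` (S_NRM), `J·XX(w+2πi,ζ) = (Jn J)·XX(w,ζ)` (S_EQV (3)),
`md f J (w+2πi,ζ) = md f (Jn J) (w,ζ)` (S_DEC, first statement). -/
def S_FJM : Prop := ∀ (a A δ₀ ρ₀ : ℝ) (s : ℝ → ℝ) (p : ℂ → ℝ) (B : BlockData), Dat a A δ₀ ρ₀ s p B →
  ∀ f : V4 → ℂ, ContDiffOn ℝ ∞ f (closure (Omt a A s p)) → GamInv (closure (Omt a A s p)) f →
  (∀ J, AEStronglyMeasurable (FJ a A s p f J) (muS a)) ∧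
  (∀ J, ∀ w ∈ strip a, FJ a A s p f J (w + 2 * Real.pi * Complex.I) = FJ a A s p f (Jn J) w)

/-- PACKET FJD (1 h): iterated difference quotients (uses S_FJA, S_WW, `S_MVT` of Helper24/AB/AN/Goals).

PROOF.  `(Dh h)^[k] F ⟨σ,t⟩ = ((fun g t => (g (t+h) - g t)/h)^[k] (fun t => F ⟨σ,t⟩)) t` (induction); S_MVT:
`≤ sup_{0≤s≤kh} |∂_t^kF(⟨σ,t+s⟩)|`, and `W(t) ≤ e^k W(t+s)` (`IsWt.slow`: for `J ∈ JJ`; for `J₀ = J₁ = 0` `W` is constant).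
(2) `F̃_J ∈ L²(strip)`, `J ∈ JJ`: `|F̃_J| ≤ C W^{-1}`, `∫∫ W^{-2} ≤ 2aC` (S_WW (2)), measurable by S_FJA. -/
def S_FJD : Prop := ∀ (a A δ₀ ρ₀ : ℝ) (s : ℝ → ℝ) (p : ℂ → ℝ) (B : BlockData), Dat a A δ₀ ρ₀ s p B →
  ∀ f : V4 → ℂ, ContDiffOn ℝ ∞ f (closure (Omt a A s p)) → GamInv (closure (Omt a A s p)) f →
  (∀ k N : ℕ, ∃ C : ℝ, ∀ J, ∀ h : ℝ, 0 < h → h ≤ 1 → ∀ w ∈ strip a,
    ‖(Dh h)^[k] (FJ a A s p f J) w‖ * WJ J w.im ^ N ≤ C) ∧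
  ∀ J : JJ, MemLp (FJ a A s p f J.1) 2 (muS a)

/-- The orthogonality over the strip. -/
def OrtS (a : ℝ) (Φ : ℂ → ℝ) (F g : ℂ → ℂ) : Prop :=
  ∀ h, DifferentiableOn ℂ h (strip a) → MemLp (fun w => (Real.exp (-(Φ w)) : ℂ) * h w) 2 (muS a) →
    ∫ w in strip a, (F w - (Real.exp (-(Φ w)) : ℂ) * g w) *
      (starRingEnd ℂ) ((Real.exp (-(Φ w)) : ℂ) * h w) = 0

/-- The orthogonality over the cell (periodic functions). -/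
def OrtC (a : ℝ) (Φ : ℂ → ℝ) (F g : ℂ → ℂ) : Prop :=
  ∀ h, DifferentiableOn ℂ h (strip a) → (∀ w ∈ strip a, h (w + 2 * Real.pi * Complex.I) = h w) →
    MemLp (fun w => (Real.exp (-(Φ w)) : ℂ) * h w) 2 (volume.restrict (cell a)) →
    ∫ w in cell a, (F w - (Real.exp (-(Φ w)) : ℂ) * g w) *
      (starRingEnd ℂ) ((Real.exp (-(Φ w)) : ℂ) * h w) = 0

/-- PACKET GBJ (1 h): from `URap` to `GBd` (uses S_WW).

PROOF.  `SB a T ⊆ strip a`, `W_J(t) ≥ c nJ J` for `|t| ≤ T`, so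
`(∫_{SB a T}(e^{-Φ}‖g^{(k)}‖)²) (c nJ)^{2N} ≤ ‖W^N e^{-Φ}g^{(k)}‖²_{L²(strip)} ≤ C²`; `nJ ≥ 1`, so the exponent `N` is covered by
`2N`.  (`eLpNorm` to integral: `MemLp`, `eLpNorm_eq_lintegral_rpow_enorm`.)  For `T ≤ 0` the set is empty.  `JJ` and the set
`{J | J 0 ≠ 0 ∨ J 1 ≠ 0}`: `G J = if h : _ then g ⟨J,h⟩ else 0`. -/
def S_GBJ : Prop := ∀ (a A δ₀ ρ₀ : ℝ) (s : ℝ → ℝ) (p : ℂ → ℝ) (B : BlockData), Dat a A δ₀ ρ₀ s p B →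
  ∀ G : (Fin 3 → ℤ) → ℂ → ℂ, (∀ J, (J 0 ≠ 0 ∨ J 1 ≠ 0) → DifferentiableOn ℂ (G J) (strip a)) →
  (∀ k : ℕ, URap a (fun J : JJ => WJ J.1) (fun (J : JJ) w =>
    (Real.exp (-(PhiJ a A s p J.1 w)) : ℂ) * deriv^[k] (G J.1) w)) →
  GBd a A s p {J | J 0 ≠ 0 ∨ J 1 ≠ 0} G

/-- PACKET GEQ (1.2 h): equivariance of the `g_J` (uses S_UNQ, S_NRM, S_PHC).

PROOF.  Let `J' = Jn J`, `T w = w + 2πi` (preserves the strip and Lebesgue measure).  `g₂ = G J ∘ T` is holomorphic on the strip,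
`e^{-Φ_{J'}}g₂ = (e^{-Φ_J}G J) ∘ T ∈ L²`, and for `h` with `e^{-Φ_{J'}}h ∈ L²` put `h' = h ∘ T⁻¹`: `e^{-Φ_J}h' ∈ L²` and
`∫(F_{J'} - e^{-Φ_{J'}}g₂)conj(e^{-Φ_{J'}}h) = ∫[(F_J - e^{-Φ_J}G J)conj(e^{-Φ_J}h')]∘T = 0` since `F_{J'} = F_J ∘ T`,
`Φ_{J'} = Φ_J ∘ T` on the strip.  `G J'` has the same property: S_UNQ. -/
def S_GEQ : Prop := ∀ (a A δ₀ ρ₀ : ℝ) (s : ℝ → ℝ) (p : ℂ → ℝ) (B : BlockData), Dat a A δ₀ ρ₀ s p B →
  ∀ (F G : (Fin 3 → ℤ) → ℂ → ℂ) (J : Fin 3 → ℤ), (∀ J, MemLp (F J) 2 (muS a) ∨ (J 0 = 0 ∧ J 1 = 0)) →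
  (J 0 ≠ 0 ∨ J 1 ≠ 0) →
  (∀ w ∈ strip a, F J (w + 2 * Real.pi * Complex.I) = F (Jn J) w) →
  (∀ J, (J 0 ≠ 0 ∨ J 1 ≠ 0) → DifferentiableOn ℂ (G J) (strip a) ∧
    MemLp (fun w => (Real.exp (-(PhiJ a A s p J w)) : ℂ) * G J w) 2 (muS a) ∧
    OrtS a (PhiJ a A s p J) (F J) (G J)) →
  ∀ w ∈ strip a, G J (w + 2 * Real.pi * Complex.I) = G (Jn J) w

/-! ## The inner product -/

/-- PACKET SPL (2 h): splitting of the inner product (uses S_PARS, S_MAP, S_EQV).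

PROOF.  For `y ∈ YS a (strip a)` the functions `θ ↦ G(Pt y θ)`, `h(Pt y θ)` are `CPer` (S_EQV (2), (5); `Pt y` is affine in `θ`).
`md G J`, `md h J` are continuous on `YS a (strip a)` (dominated convergence: `G(Pt y θ)` is jointly continuous, bounded for `y` in a
compact subset and `θ ∈ [0,2π]³`), so measurable.  By S_PARS (2), Tonelli and S_MAP:
`∑_J ∫⁻‖md G J‖² = (2π)^{-3}∫⁻_y∫⁻_{T3}‖G(Pt y θ)‖² = (2π)^{-3}∫⁻_{Fund}‖G‖² < ∞`, the same for `h`.  By S_MAP and Fubini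
`∫_{Fund} G conj h = ∫_y ∫_{T3} G(Pt y θ)conj h(Pt y θ) dθ dμ(y) = (2π)³ ∫_y ∑_J md G J conj(md h J) dμ(y)` (S_PARS (1)), and
`∑_J ∫‖md G J‖‖md h J‖ ≤ ½∑_J∫(‖md G J‖²+‖md h J‖²) < ∞` allows to exchange (`hasSum_integral_of_summable_integral_norm`). -/
def S_SPL : Prop := ∀ (a A δ₀ ρ₀ : ℝ) (s : ℝ → ℝ) (p : ℂ → ℝ) (B : BlockData), Dat a A δ₀ ρ₀ s p B →
  ∀ G h : V4 → ℂ, ContinuousOn G (Omt a A s p) → ContinuousOn h (Omt a A s p) →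
  (∀ P ∈ Omt a A s p, ∀ k, G (tE k P) = G P) → (∀ P ∈ Omt a A s p, ∀ k, h (tE k P) = h P) →
  IntegrableOn (fun P => ‖G P‖ ^ 2) (Fund a A s p) →
  IntegrableOn (fun P => ‖h P‖ ^ 2) (Fund a A s p) →
  (∀ J, Integrable (fun y => ‖md a A s p G J y‖ ^ 2) (muY a A s (cell a)) ∧
    Integrable (fun y => ‖md a A s p h J y‖ ^ 2) (muY a A s (cell a))) ∧
  Summable (fun J : Fin 3 → ℤ => ∫ y, ‖md a A s p h J y‖ ^ 2 ∂(muY a A s (cell a))) ∧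
  Summable (fun J : Fin 3 → ℤ =>
    ‖∫ y, md a A s p G J y * (starRingEnd ℂ) (md a A s p h J y) ∂(muY a A s (cell a))‖) ∧
  ∫ P in Fund a A s p, G P * (starRingEnd ℂ) (h P) = (((2 * Real.pi) ^ 3 : ℝ) : ℂ) *
    ∑' J : Fin 3 → ℤ, ∫ y, md a A s p G J y * (starRingEnd ℂ) (md a A s p h J y)
      ∂(muY a A s (cell a))

/-- PACKET COL (1.5 h): integration over the fibre (uses S_NRM, S_PHC, S_EQV, S_PB, S_NICE).

PROOF.  `∫ φ dμ_S = ∫_{w∈S} ∫_{ζ∈Bs} kJ φ(w,ζ)` (Fubini for the measure with density; `YS a S` is measurable).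
(a) `∫_{Bs} kJ|η|²e^{2J·XX} = |η(w)|²e^{-2Φ_J(w)}` (S_NRM), for the integrability use Tonelli (`lintegral`).
(b) `∫_{Bs} kJ(md f J - g e^{J·XX})conj(η)e^{J·XX} = conj(η)[∫kJ md f J e^{J·XX} - g e^{-2Φ_J}]` and
`∫ kJ md f J e^{J·XX} = e^{-Φ_J}FJ`, so it is `(FJ - e^{-Φ}g) conj(e^{-Φ}η)`.  The integrability over `muY S`: product of two `L²`
functions. (`md f J` is measurable: continuous on `YS a (strip a)`, S_PB + S_NICE (3).) -/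
def S_COL : Prop := ∀ (a A δ₀ ρ₀ : ℝ) (s : ℝ → ℝ) (p : ℂ → ℝ) (B : BlockData), Dat a A δ₀ ρ₀ s p B →
  ∀ f : V4 → ℂ, ContDiffOn ℝ ∞ f (closure (Omt a A s p)) → GamInv (closure (Omt a A s p)) f →
  ∀ (J : Fin 3 → ℤ) (S : Set ℂ), MeasurableSet S → S ⊆ strip a → ∀ g η : ℂ → ℂ,
  ContinuousOn g (strip a) → ContinuousOn η (strip a) →
  ((Integrable (fun y : YY => ‖η y.1 * (Real.exp (Jd J (XX a A s p y)) : ℂ)‖ ^ 2) (muY a A s S) ↔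
      IntegrableOn (fun w => ‖(Real.exp (-(PhiJ a A s p J w)) : ℂ) * η w‖ ^ 2) S) ∧
    ∫ y : YY, ‖η y.1 * (Real.exp (Jd J (XX a A s p y)) : ℂ)‖ ^ 2 ∂(muY a A s S) =
      ∫ w in S, ‖(Real.exp (-(PhiJ a A s p J w)) : ℂ) * η w‖ ^ 2) ∧
  (IntegrableOn (fun w => ‖(Real.exp (-(PhiJ a A s p J w)) : ℂ) * g w‖ ^ 2) S →
    IntegrableOn (fun w => ‖(Real.exp (-(PhiJ a A s p J w)) : ℂ) * η w‖ ^ 2) S →
    Integrable (fun y => ‖md a A s p f J y‖ ^ 2) (muY a A s S) →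
    ∫ y : YY, (md a A s p f J y - g y.1 * (Real.exp (Jd J (XX a A s p y)) : ℂ)) *
        (starRingEnd ℂ) (η y.1 * (Real.exp (Jd J (XX a A s p y)) : ℂ)) ∂(muY a A s S) =
      ∫ w in S, (FJ a A s p f J w - (Real.exp (-(PhiJ a A s p J w)) : ℂ) * g w) *
        (starRingEnd ℂ) ((Real.exp (-(PhiJ a A s p J w)) : ℂ) * η w))

/-- PACKET SHF (1 h): the strip is the disjoint union of the translates of the cell.

PROOF.  `strip a = ⋃_k (cell a + 2πik)`, pairwise disjoint measurable sets; `hasSum_integral_iUnion`,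
`integrableOn_iUnion_of_summable_integral_norm`, translation invariance (`integral_add_right_eq_self` for indicators). -/
def S_SHF : Prop := ∀ (a : ℝ) (E : Type) [NormedAddCommGroup E] [NormedSpace ℝ E] [CompleteSpace E]
  (φ : ℂ → E), 0 < a →
  (IntegrableOn φ (strip a) → HasSum (fun k : ℤ =>
    ∫ w in cell a, φ (w + k * (2 * Real.pi * Complex.I))) (∫ w in strip a, φ w)) ∧
  ((∀ k : ℤ, IntegrableOn (fun w => φ (w + k * (2 * Real.pi * Complex.I))) (cell a)) →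
    Summable (fun k : ℤ => ∫ w in cell a, ‖φ (w + k * (2 * Real.pi * Complex.I))‖) →
    IntegrableOn φ (strip a))

/-- PACKET MDG (1 h): the modes of an absolutely convergent Fourier series.

PROOF.  The series converges uniformly, so it is continuous, and `∫_{T3}` may be exchanged with the sum
(`integral_tsum` / `hasSum_integral_of_summable_integral_norm`, finite measure), and
`∫_{T3} e^{i(J'-J)·θ}dθ = (2π)³` if `J' = J`, `0` else (Fubini, `integral_exp_mul_complex`). -/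
def S_MDG : Prop := ∀ c : (Fin 3 → ℤ) → ℂ, Summable (fun J => ‖c J‖) →
  CPer (fun θ => ∑' J : Fin 3 → ℤ, c J * Complex.exp (Complex.I * (Jd J θ : ℝ))) ∧
  ∀ J, tm J (fun θ => ∑' J : Fin 3 → ℤ, c J * Complex.exp (Complex.I * (Jd J θ : ℝ))) = c J

/-- PACKET GIN (1.5 h): invariance and modes of the extended function (uses S_HFD, S_EQV, S_MDG, S_WW, S_XI).

PROOF.  On `Omt`: `HH g 0 (gE P) = ∑_J g_J(w+2πi) mon J (gE P) = ∑_J g_{Jn J}(w) mon (Jn J) P = HH g 0 P` (`Jn` bijective,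
`Equiv.tsum_eq`; `Jpw J 0 = 1`; `gE P ∈ Omt`), `HH g 0 (tE k P) = HH g 0 P`.  `G = HH g 0` on the open set `Omt`: holomorphic by
S_HFD (2).  `gE`, `tE k` are homeomorphisms which map `Omt` onto itself, hence its closure, and `G` is continuous on the closure:
the identities extend to the closure (density).
(3) For `y ∈ YS a (strip a)`: `G(Pt y θ) = ∑_J g_J(y.1)e^{J·XX y}e^{iJ·θ}` (S_EQV (4)), absolutely convergent (S_HFD (1)): S_MDG. -/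
def S_GIN : Prop := ∀ (a A δ₀ ρ₀ : ℝ) (s : ℝ → ℝ) (p : ℂ → ℝ) (B : BlockData), Dat a A δ₀ ρ₀ s p B →
  ∀ g : (Fin 3 → ℤ) → ℂ → ℂ, GBd a A s p Set.univ g →
  (∀ J, ∀ w ∈ strip a, g J (w + 2 * Real.pi * Complex.I) = g (Jn J) w) →
  ∀ G : V4 → ℂ, ContDiffOn ℝ ∞ G (closure (Omt a A s p)) →
  (∀ P ∈ Omt a A s p, G P = HH g (0, 0) P) →
  GamInv (closure (Omt a A s p)) G ∧ DifferentiableOn ℂ G (Omt a A s p) ∧
  ∀ J, ∀ y ∈ YS a (strip a),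
    md a A s p G J y = g J y.1 * (Real.exp (Jd J (XX a A s p y)) : ℂ)

/-- PACKET BDD (0.8 h): a function which is continuous on the closure is in `L²(Fund)` (uses S_XI, S_EQV).

PROOF.  `Fund ⊆ Xi (closed ball × [0,2π]⁴)`, compact subset of `closure Omt`; so the function is bounded on `Fund`, `Fund` is
measurable (`rfun` is continuous on the open set `|σ| < 3a/2`) and of finite measure. -/
def S_BDD : Prop := ∀ (a A δ₀ ρ₀ : ℝ) (s : ℝ → ℝ) (p : ℂ → ℝ) (B : BlockData), Dat a A δ₀ ρ₀ s p B →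
  MeasurableSet (Fund a A s p) ∧ ∀ G : V4 → ℂ, ContinuousOn G (closure (Omt a A s p)) →
    IntegrableOn (fun P => ‖G P‖ ^ 2) (Fund a A s p)

/-- PACKET CJZ (2 h): the contributions of the orbits vanish (uses S_COL, S_SHF, S_NRM, S_PHC, S_FJA, S_FJD, S_WW).

PROOF.  `md h J y = η_J(y.1)e^{J·XX}`.  By S_COL (a) `∫_{cell}‖e^{-Φ_J}η_J‖² = ∫‖md h J‖² dμ < ∞`.
(1) `J₀ = J₁ = 0`: `Jn J = J`, `η_J` is periodic; S_COL (b) with `S = cell a` and `OrtC` (MemLp from integrability of the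
square).  `g_J` is in the weighted `L²(cell)` by GBd (`cell a ⊆ SB a 7`).
(2) `(J₀,J₁) ≠ 0`, `J_k = (JnE^k) J`: by S_COL (b) and the equivariance of `FJ`, `Φ`, `g`, `η` (`X_{J_k}(w) = X_J(w+2πik)`,
induction on `k ∈ ℤ`) `c(J_k) = ∫_{cell} Ψ(w+2πik)dA`, `Ψ = (FJ_J - e^{-Φ_J}g_J)conj(e^{-Φ_J}η_J)`.  `e^{-Φ_J}η_J ∈ L²(strip)`: S_SHF (2)
for `φ = ‖e^{-Φ_J}η_J‖²`, `∑_k∫_{cell}φ(w+2πik) = ∑_k ∫‖md h J_k‖² < ∞` since `k ↦ J_k` is injective (`alp J_k = lam^k alp J`).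
`F̃_J, e^{-Φ_J}g_J ∈ L²(strip)`, so `Ψ` is integrable, S_SHF (1) gives `∑_k c(J_k) = ∫_{strip}Ψ = 0` by `OrtS` with `h = η_J`. -/
def S_CJZ : Prop := ∀ (a A δ₀ ρ₀ : ℝ) (s : ℝ → ℝ) (p : ℂ → ℝ) (B : BlockData), Dat a A δ₀ ρ₀ s p B →
  ∀ f : V4 → ℂ, ContDiffOn ℝ ∞ f (closure (Omt a A s p)) → GamInv (closure (Omt a A s p)) f →
  (∀ J, Integrable (fun y => ‖md a A s p f J y‖ ^ 2) (muY a A s (cell a))) →
  ∀ g η : (Fin 3 → ℤ) → ℂ → ℂ, GBd a A s p Set.univ g →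
  (∀ J, ∀ w ∈ strip a, g J (w + 2 * Real.pi * Complex.I) = g (Jn J) w) →
  (∀ J, (J 0 ≠ 0 ∨ J 1 ≠ 0) →
    MemLp (fun w => (Real.exp (-(PhiJ a A s p J w)) : ℂ) * g J w) 2 (muS a) ∧
    OrtS a (PhiJ a A s p J) (FJ a A s p f J) (g J)) →
  (∀ J, J 0 = 0 → J 1 = 0 → OrtC a (PhiJ a A s p J) (FJ a A s p f J) (g J)) →
  (∀ J, DifferentiableOn ℂ (η J) (strip a)) →
  (∀ J, ∀ w ∈ strip a, η J (w + 2 * Real.pi * Complex.I) = η (Jn J) w) →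
  (∀ J, Integrable (fun y : YY => ‖η J y.1 * (Real.exp (Jd J (XX a A s p y)) : ℂ)‖ ^ 2)
    (muY a A s (cell a))) →
  Summable (fun J : Fin 3 → ℤ => ∫ y : YY, ‖η J y.1 * (Real.exp (Jd J (XX a A s p y)) : ℂ)‖ ^ 2
    ∂(muY a A s (cell a))) →
  ∀ (JnE : Equiv.Perm (Fin 3 → ℤ)), (∀ J, JnE J = Jn J) → ∀ c : (Fin 3 → ℤ) → ℂ,
  (∀ J, c J = ∫ y : YY, (md a A s p f J y - g J y.1 * (Real.exp (Jd J (XX a A s p y)) : ℂ)) *
        (starRingEnd ℂ) (η J y.1 * (Real.exp (Jd J (XX a A s p y)) : ℂ)) ∂(muY a A s (cell a))) →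
  (∀ J, J 0 = 0 → J 1 = 0 → c J = 0) ∧
  (∀ J, (J 0 ≠ 0 ∨ J 1 ≠ 0) → ∑' k : ℤ, c ((JnE ^ k) J) = 0)

end Pool.Agent.Helper10.AB
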